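import Mathlib

/-!
# Orders of growth
-/

set_option autoImplicit false

namespace Q47.KN

open Filter Topology

/-- The order of growth `limsup log f(m) / log m`. -/
noncomputable def growth (f : ℕ → ℕ) : EReal :=
  limsup (fun m : ℕ => ENNReal.log (f m) / ENNReal.log m) atTop

/-- The largest `k` with `limsup f(m) / m^k > 0`. -/
noncomputable def grow (f : ℕ → ℕ) : EReal :=
  ⨆ k ∈ {k : ℕ | 0 < limsup (fun m : ℕ => (f m : ENNReal) / (m : ENNReal) ^ k) atTop}, (k : EReal)

theorem log_nat {n : ℕ} (hn : 1 ≤ n) : ENNReal.log (n : ENNReal) = (Real.log n : EReal) := by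
  rw [ENNReal.log_pos_real (by exact_mod_cast (Nat.one_le_iff_ne_zero.1 hn))
    (ENNReal.natCast_ne_top n), ENNReal.toReal_natCast]

theorem tends (c : ℝ) (k : ℕ) :
    Tendsto (fun m : ℕ => (c + k * Real.log m) / Real.log m) atTop (𝓝 k) := by
  have h1 : Tendsto (fun m : ℕ => Real.log m) atTop atTop :=
    Real.tendsto_log_atTop.comp tendsto_natCast_atTop_atTop
  have h2 : Tendsto (fun m : ℕ => c / Real.log m + k) atTop (𝓝 (0 + k)) :=
    (h1.const_div_atTop c).add_const _
  rw [zero_add] at h2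
  refine h2.congr' ?_
  filter_upwards [eventually_ge_atTop 2] with m hm
  have h3 : (0 : ℝ) < Real.log m := Real.log_pos (by exact_mod_cast hm)
  field_simp

theorem growth_le {f : ℕ → ℕ} {D k : ℕ} (h : ∀ m, 1 ≤ m → f m ≤ D * m ^ k) :
    growth f ≤ k := by
  have ht : Tendsto (fun m : ℕ => (((Real.log (D + 1 : ℕ) + k * Real.log m) / Real.log m : ℝ) :
      EReal)) atTop (𝓝 ((k : ℝ) : EReal)) :=
    (continuous_coe_real_ereal.tendsto _).comp (tends _ k)
  have hk : ((k : ℝ) : EReal) = (k : EReal) := rfl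
  rw [hk] at ht
  rw [← ht.limsup_eq]
  refine limsup_le_limsup ?_
  filter_upwards [eventually_ge_atTop 2] with m hm
  have h3 : (0 : ℝ) < Real.log m := Real.log_pos (by exact_mod_cast hm)
  have hm1 : 1 ≤ m := by omega
  have hm0 : (m : ℝ) ≠ 0 := by positivity
  have hlog : ENNReal.log (m : ENNReal) = (Real.log m : EReal) := log_nat hm1
  have hb : 1 ≤ (D + 1) * m ^ k := Nat.mul_pos (Nat.succ_pos _) (pow_pos hm1 k)
  have h4 : ENNReal.log ((((D + 1) * m ^ k : ℕ)) : ENNReal)
      = ((Real.log (D + 1 : ℕ) + k * Real.log m : ℝ) : EReal) := by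
    rw [log_nat hb]
    congr 1
    rw [Nat.cast_mul, Real.log_mul (by positivity) (by positivity), Nat.cast_pow, Real.log_pow]
  rw [hlog, EReal.coe_div, ← h4]
  refine EReal.div_le_div_right_of_nonneg (by exact_mod_cast h3.le) (ENNReal.log_le_log ?_)
  exact_mod_cast (h m hm1).trans (Nat.mul_le_mul (Nat.le_succ D) le_rfl)

theorem le_growth {f : ℕ → ℕ} {c : ℝ} (hc : 0 < c) {k : ℕ}
    (h : ∃ᶠ m : ℕ in atTop, c * (m : ℝ) ^ k ≤ f m) : (k : EReal) ≤ growth f := by
  have ht : Tendsto (fun m : ℕ => (((Real.log c + k * Real.log m) / Real.log m : ℝ) :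
      EReal)) atTop (𝓝 ((k : ℝ) : EReal)) :=
    (continuous_coe_real_ereal.tendsto _).comp (tends _ k)
  refine le_of_forall_lt_imp_le_of_dense fun b hb => ?_
  have h1 := ht.eventually_const_le (show b < ((k : ℝ) : EReal) from hb)
  refine le_limsup_of_frequently_le' ?_
  refine (h.and_eventually (h1.and (eventually_ge_atTop 2))).mono fun m hm => ?_
  obtain ⟨h2, h3, h4⟩ := hm
  have h5 : (0 : ℝ) < Real.log m := Real.log_pos (by exact_mod_cast h4)
  have hm0 : (0 : ℝ) < m := by positivity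
  have h6 : (0 : ℝ) < f m := lt_of_lt_of_le (by positivity) h2
  have h7 : 1 ≤ f m := by exact_mod_cast h6
  refine h3.trans ?_
  rw [log_nat h7, log_nat (by omega : 1 ≤ m), ← EReal.coe_div]
  refine EReal.coe_le_coe_iff.2 (div_le_div_of_nonneg_right ?_ h5.le)
  rw [← Real.log_pow, ← Real.log_mul hc.ne' (by positivity)]
  exact Real.log_le_log (by positivity) h2

theorem growth_bot {f : ℕ → ℕ} (h : ∀ᶠ m : ℕ in atTop, f m = 0) : growth f = ⊥ := by
  have h1 : (fun m : ℕ => ENNReal.log (f m) / ENNReal.log m) =ᶠ[atTop] fun _ => (⊥ : EReal) := by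
    filter_upwards [h, eventually_ge_atTop 2] with m hm hm2
    have h3 : (0 : ℝ) < Real.log m := Real.log_pos (by exact_mod_cast hm2)
    rw [hm, Nat.cast_zero, ENNReal.log_zero, log_nat (by omega)]
    exact EReal.bot_div_of_pos_ne_top (by exact_mod_cast h3) (EReal.coe_ne_top _)
  rw [growth, limsup_congr h1, limsup_const]

theorem grow_eq {f : ℕ → ℕ} {D k : ℕ} (h : ∀ m, 1 ≤ m → f m ≤ D * m ^ k) {c : ℝ} (hc : 0 < c)
    (h' : ∃ᶠ m : ℕ in atTop, c * (m : ℝ) ^ k ≤ f m) : grow f = k := by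
  refine le_antisymm ?_ ?_
  · refine iSup₂_le fun k' hk' => ?_
    by_contra hcon
    push Not at hcon
    have hlt : k < k' := by exact_mod_cast hcon
    have hz : limsup (fun m : ℕ => (f m : ENNReal) / (m : ENNReal) ^ k') atTop = 0 := by
      have ht : Tendsto (fun m : ℕ => (D : ENNReal) / (m : ENNReal)) atTop (𝓝 0) := by
        have := ENNReal.Tendsto.const_div (a := (D : ENNReal)) ENNReal.tendsto_nat_nhds_top
          (Or.inr (ENNReal.natCast_ne_top D))
        rwa [ENNReal.div_top] at this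
      rw [← nonpos_iff_eq_zero]
      have h0 : limsup (fun m : ℕ => (D : ENNReal) / (m : ENNReal)) atTop = 0 := ht.limsup_eq
      rw [← h0]
      refine limsup_le_limsup ?_
      filter_upwards [eventually_ge_atTop 1] with m hm
      have hm0 : (m : ENNReal) ≠ 0 := by exact_mod_cast (by omega : m ≠ 0)
      have hmt : (m : ENNReal) ≠ ⊤ := ENNReal.natCast_ne_top m
      have h1 : (f m : ENNReal) ≤ D * (m : ENNReal) ^ k := by exact_mod_cast h m hm
      obtain ⟨e, rfl⟩ : ∃ e, k' = k + 1 + e := ⟨k' - (k + 1), by omega⟩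
      rw [ENNReal.div_le_iff (pow_ne_zero _ hm0) (ENNReal.pow_ne_top hmt)]
      refine h1.trans ?_
      have h2 : (D : ENNReal) / m * (m : ENNReal) ^ (k + 1 + e)
          = D * (m : ENNReal) ^ k * (m : ENNReal) ^ e := by
        rw [pow_add, pow_succ, ENNReal.div_eq_inv_mul]
        calc (m : ENNReal)⁻¹ * D * ((m : ENNReal) ^ k * m * (m : ENNReal) ^ e)
            = ((m : ENNReal)⁻¹ * m) * (D * (m : ENNReal) ^ k * (m : ENNReal) ^ e) := by ring
          _ = _ := by rw [ENNReal.inv_mul_cancel hm0 hmt, one_mul]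
      rw [h2]
      refine le_mul_of_one_le_right' (one_le_pow₀ ?_)
      exact_mod_cast hm
    have hk2 : 0 < limsup (fun m : ℕ => (f m : ENNReal) / (m : ENNReal) ^ k') atTop := hk'
    rw [hz] at hk2
    exact lt_irrefl _ hk2
  · refine le_iSup₂ (f := fun (k : ℕ) (_ : k ∈ {k : ℕ | 0 < limsup
      (fun m : ℕ => (f m : ENNReal) / (m : ENNReal) ^ k) atTop}) => (k : EReal)) k ?_
    have h1 : ENNReal.ofReal c ≤ limsup (fun m : ℕ => (f m : ENNReal) / (m : ENNReal) ^ k) atTop := by
      refine le_limsup_of_frequently_le' ?_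
      refine (h'.and_eventually (eventually_ge_atTop 1)).mono fun m hm => ?_
      have hm0 : (m : ENNReal) ≠ 0 := by exact_mod_cast (by omega : m ≠ 0)
      have hmt : (m : ENNReal) ≠ ⊤ := ENNReal.natCast_ne_top m
      rw [ENNReal.le_div_iff_mul_le (Or.inl (pow_ne_zero _ hm0)) (Or.inl (ENNReal.pow_ne_top hmt))]
      have h2 := ENNReal.ofReal_le_ofReal hm.1
      rwa [ENNReal.ofReal_mul hc.le, ENNReal.ofReal_pow (Nat.cast_nonneg m),
        ENNReal.ofReal_natCast, ENNReal.ofReal_natCast] at h2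
    exact (ENNReal.ofReal_pos.2 hc).trans_le h1

end Q47.KN
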