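import Pool.Agent.Q47.KN.Net
import Pool.Agent.Q47.KN.Grow

/-!
# Kodaira dimension and numerical dimension on torus quotients
-/

set_option autoImplicit false

namespace Q47.KN

open Pool.Agent.W594.SYZ2 Pool.Agent.W594.SYZ2.TQ Pool.Agent.TH735.AQ Q47.EB Q47.MM
open Pool.Agent.Helper857 Filter Topology

variable {V : Type*} [NormedAddCommGroup V] [NormedSpace ℂ V]
variable {Γ : Subgroup (V ≃ᵃ[ℂ] V)}

/-- The dimension of the space of the global sections. -/
noncomputable def h0 (L : LineBundle Γ) : ℕ := Module.finrank ℂ (sec L)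

open Classical in
/-- The Kodaira dimension: `-∞` if `h^0(L^m) = 0` for all `m ≥ 1`, and otherwise the largest `k` with
`limsup h^0(L^m) / m^k > 0`. -/
noncomputable def kod (L : LineBundle Γ) : EReal :=
  if ∀ m : ℕ, 1 ≤ m → h0 (L.pow m) = 0 then ⊥ else grow fun m => h0 (L.pow m)

/-- The numerical dimension: the supremum of `limsup log h^0(L^m ⊗ A) / log m` over the line bundles
`A` with a Chern form. -/
noncomputable def num (L : LineBundle Γ) : EReal :=
  ⨆ A ∈ {A : LineBundle Γ | ∃ HA, IsChernForm A HA}, growth fun m => h0 (tensor (L.pow m) A)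

theorem lb_ext {L M : LineBundle Γ} (h : ∀ γ v, L.e γ v = M.e γ v) : L = M := by
  cases L
  cases M
  congr
  funext γ v
  exact h γ v

theorem pow_pow (L : LineBundle Γ) (a b : ℕ) : (L.pow a).pow b = L.pow (a * b) :=
  lb_ext fun _ _ => (pow_mul _ _ _).symm

/-- The trivial line bundle. -/
def one (Γ : Subgroup (V ≃ᵃ[ℂ] V)) : LineBundle Γ where
  e := fun _ _ => 1
  holo := fun _ => differentiable_const 1
  ne_zero := fun _ _ => one_ne_zero
  mul := fun _ _ _ => (mul_one _).symm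
  stab := fun _ _ _ => rfl

theorem tensor_one (L : LineBundle Γ) : tensor L (one Γ) = L := lb_ext fun _ _ => mul_one _

theorem chern_one : IsChernForm (one Γ) fun _ _ => 0 := by
  refine ⟨⟨fun _ _ _ => (add_zero _).symm, fun _ _ _ => (mul_zero _).symm, fun _ _ => by simp⟩,
    fun _ => 0, differentiable_const 0, fun γ v => ?_⟩
  change ‖(1 : ℂ)‖ ^ 2 = _
  simp

theorem chern_tensor {L A : LineBundle Γ} {H HA : V → V → ℂ} (hL : IsChernForm L H)
    (hA : IsChernForm A HA) (j : ℕ) :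
    IsChernForm (tensor (L.pow j) A) fun v w => (j : ℂ) * H v w + HA v w := by
  obtain ⟨hH, F, hF⟩ := hL
  obtain ⟨hHA, FA, hFA⟩ := hA
  exact ⟨herm_comb hH hHA j, _, pot_tensor hF hFA j⟩

theorem chern_pow {L : LineBundle Γ} {H : V → V → ℂ} (hL : IsChernForm L H) (j : ℕ) :
    IsChernForm (L.pow j) fun v w => (j : ℂ) * H v w := by
  have := chern_tensor hL (chern_one (Γ := Γ)) j
  rw [tensor_one] at this
  simpa only [add_zero] using this

theorem exists_section_of_h0 {L : LineBundle Γ} (h : h0 L ≠ 0) :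
    ∃ s, L.IsSection s ∧ ∃ v, s v ≠ 0 := by
  by_contra hcon
  push Not at hcon
  apply h
  have h1 : sec L = ⊥ := by
    rw [Submodule.eq_bot_iff]
    exact fun s hs => funext fun v => hcon s hs v
  rw [h0, h1, finrank_bot]

theorem h0_ne_zero {L : LineBundle Γ} [Module.Finite ℂ (sec L)] {s : V → ℂ} (hs : L.IsSection s)
    (hs0 : ∃ v, s v ≠ 0) : h0 L ≠ 0 := by
  intro h
  have h1 := (Submodule.finrank_eq_zero (S := sec L)).1 h
  obtain ⟨v, hv⟩ := hs0
  have h2 : s ∈ sec L := hs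
  rw [h1, Submodule.mem_bot] at h2
  exact hv (congrFun h2 v)

section Main

variable [FiniteDimensional ℂ V]

/-- The rank of the Chern form. -/
noncomputable def rank {H : V → V → ℂ} (hH : IsHermitian H) : ℕ := Module.finrank ℂ (V ⧸ ker hH)

theorem exists_proj {H : V → V → ℂ} (hH : IsHermitian H) :
    ∃ π : V →ₗ[ℂ] (Fin (rank hH) → ℂ), Function.Surjective π ∧
      ∀ v, π v = 0 → ∀ w, H v w = 0 := by
  let e : (V ⧸ ker hH) ≃ₗ[ℂ] (Fin (rank hH) → ℂ) := (Module.finBasis ℂ (V ⧸ ker hH)).equivFun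
  refine ⟨(e : (V ⧸ ker hH) →ₗ[ℂ] (Fin (rank hH) → ℂ)) ∘ₗ (ker hH).mkQ,
    e.surjective.comp (ker hH).mkQ_surjective, fun v hv => ?_⟩
  change e ((ker hH).mkQ v) = 0 at hv
  rwa [LinearEquiv.map_eq_zero_iff, Submodule.mkQ_apply, Submodule.Quotient.mk_eq_zero] at hv

theorem exists_compl {H : V → V → ℂ} (hH : IsHermitian H) (hn : IsNefForm H) :
    ∃ U : Submodule ℂ V, Module.finrank ℂ U = rank hH ∧ ∀ x ∈ U, x ≠ 0 → 0 < (H x x).re := by
  obtain ⟨U, hU⟩ := Submodule.exists_isCompl (ker hH)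
  refine ⟨U, ((ker hH).quotientEquivOfIsCompl U hU).finrank_eq.symm, fun x hx hx0 => ?_⟩
  refine lt_of_le_of_ne (hn x) fun h => hx0 ?_
  have h1 : x ∈ ker hH := fun w => h_isotropic hH hn x h.symm w
  exact (Submodule.disjoint_def.1 hU.disjoint) x h1 hx

theorem upper' (hΓ : IsTorusQuotient Γ) {L A : LineBundle Γ} {H HA : V → V → ℂ}
    (hL : IsChernForm L H) (hA : IsChernForm A HA) :
    ∃ D : ℕ, ∀ j : ℕ, 1 ≤ j → FiniteDimensional ℂ (sec (tensor (L.pow j) A)) ∧
      h0 (tensor (L.pow j) A) ≤ D * j ^ rank hL.1 := by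
  obtain ⟨π, h1, h2⟩ := exists_proj hL.1
  exact upper hΓ hL hA π h1 h2

theorem finite_sec (hΓ : IsTorusQuotient Γ) {L : LineBundle Γ} {H : V → V → ℂ}
    (hL : IsChernForm L H) : FiniteDimensional ℂ (sec L) := by
  obtain ⟨D, hD⟩ := upper' hΓ (chern_one (Γ := Γ)) hL
  have h1 := (hD 1 le_rfl).1
  have h2 : tensor ((one Γ).pow 1) L = L := lb_ext fun γ v => by
    change (1 : ℂ) ^ 1 * L.e γ v = L.e γ v
    rw [one_pow, one_mul]
  rwa [h2] at h1

theorem lower (hΓ : IsTorusQuotient Γ) {L : LineBundle Γ} {H : V → V → ℂ}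
    (hL : IsChernForm L H) (hn : IsNefForm H) {N : ℕ} (hN : 1 ≤ N) (hg : GG (L.pow N)) (j : ℕ) :
    (j / rank hL.1 + 1) ^ rank hL.1 ≤ h0 (L.pow (N * j)) := by
  obtain ⟨U, hU, hpos⟩ := exists_compl hL.1 hn
  obtain ⟨hNH, F, hF⟩ := chern_pow hL N
  obtain ⟨κ, _, t, ht, hli, hcard⟩ := many_sections hΓ hNH ⟨hF.1, hF.2⟩ U (fun x hx hx0 => by
    have h1 := hpos x hx hx0
    have h2 : ((N : ℂ) * H x x).re = (N : ℝ) * (H x x).re := by
      have : ((N : ℕ) : ℂ) = ((N : ℝ) : ℂ) := by push_cast; rfl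
      rw [this, Complex.re_ofReal_mul]
    rw [h2]
    have h3 : (0 : ℝ) < N := by exact_mod_cast hN
    exact mul_pos h3 h1) hg j
  rw [hU] at hcard
  rw [← hcard, ← pow_pow]
  have : FiniteDimensional ℂ (sec ((L.pow N).pow j)) := by
    rw [pow_pow]
    exact finite_sec hΓ (chern_pow hL _)
  let t' : κ → sec ((L.pow N).pow j) := fun α => ⟨t α, ht α⟩
  have hli' : LinearIndependent ℂ t' := by
    apply LinearIndependent.of_comp (sec ((L.pow N).pow j)).subtype
    exact hli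
  exact hli'.fintype_card_le_finrank

/-- Estimate of the lower bound. -/
theorem div_pow_ge (r E a : ℕ) (hE : 1 ≤ E) (ha : 1 ≤ a) : ∃ c : ℝ, 0 < c ∧ ∀ j : ℕ,
    c * ((E * j : ℕ) : ℝ) ^ r ≤ (((a * j) / r + 1 : ℕ) : ℝ) ^ r := by
  rcases Nat.eq_zero_or_pos r with rfl | hr
  · exact ⟨1, one_pos, fun j => by simp⟩
  have hr0 : (0 : ℝ) < r := by exact_mod_cast hr
  have hE0 : (0 : ℝ) < E := by exact_mod_cast hE
  refine ⟨(1 / (r * E)) ^ r, by positivity, fun j => ?_⟩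
  rw [← mul_pow]
  refine pow_le_pow_left₀ (by positivity) ?_ r
  have h1 : ((a * j : ℕ) : ℝ) < r * ((a * j) / r + 1 : ℕ) := by
    have := Nat.lt_mul_div_succ (a * j) hr
    exact_mod_cast this
  have ha0 : (1 : ℝ) ≤ a := by exact_mod_cast ha
  have hj0 : (0 : ℝ) ≤ j := Nat.cast_nonneg j
  have h2 : (j : ℝ) ≤ ((a * j : ℕ) : ℝ) := by
    push_cast
    nlinarith
  have h3 : 1 / ((r : ℝ) * E) * ((E * j : ℕ) : ℝ) = j / r := by
    push_cast
    field_simp
  rw [h3, div_le_iff₀ hr0]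
  rw [mul_comm]
  linarith

theorem freq_of {f : ℕ → ℕ} {r E a : ℕ} (hE : 1 ≤ E) (ha : 1 ≤ a)
    (h : ∀ j, 1 ≤ j → ((a * j) / r + 1) ^ r ≤ f (E * j)) :
    ∃ c : ℝ, 0 < c ∧ ∃ᶠ m : ℕ in atTop, c * (m : ℝ) ^ r ≤ f m := by
  obtain ⟨c, hc, hcj⟩ := div_pow_ge r E a hE ha
  refine ⟨c, hc, ?_⟩
  rw [frequently_atTop]
  intro n
  refine ⟨E * (n + 1), ?_, ?_⟩
  · nlinarith
  · refine (hcj (n + 1)).trans ?_
    exact_mod_cast h (n + 1) (by omega)

theorem num_le (hΓ : IsTorusQuotient Γ) {L : LineBundle Γ} {H : V → V → ℂ}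
    (hL : IsChernForm L H) : num L ≤ rank hL.1 := by
  refine iSup₂_le fun A hA => ?_
  obtain ⟨HA, hHA⟩ := hA
  obtain ⟨D, hD⟩ := upper' hΓ hL hHA
  exact growth_le fun m hm => (hD m hm).2

theorem eq_of_gg (hΓ : IsTorusQuotient Γ) {L : LineBundle Γ} {H : V → V → ℂ}
    (hL : IsChernForm L H) (hn : IsNefForm H) {N : ℕ} (hN : 1 ≤ N) (hg : GG (L.pow N)) :
    kod L = rank hL.1 ∧ num L = rank hL.1 := by
  obtain ⟨c, hc, hfreq⟩ := freq_of (f := fun m => h0 (L.pow m)) (r := rank hL.1) (a := 1) hN le_rfl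
    fun j _ => by
      rw [one_mul]
      exact lower hΓ hL hn hN hg j
  constructor
  · rw [kod, if_neg]
    · obtain ⟨D, hD⟩ := upper' hΓ hL (chern_one (Γ := Γ))
      refine grow_eq (D := D) (fun m hm => ?_) hc hfreq
      have := (hD m hm).2
      rwa [tensor_one] at this
    · intro hcon
      obtain ⟨s, hs, hs0⟩ := hg 0
      have := finite_sec hΓ (chern_pow hL N)
      exact h0_ne_zero hs ⟨0, hs0⟩ (hcon N hN)
  · refine le_antisymm (num_le hΓ hL) ?_
    refine (le_growth hc hfreq).trans ?_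
    have h1 : (fun m => h0 (L.pow m)) = fun m => h0 (tensor (L.pow m) (one Γ)) := by
      funext m
      rw [tensor_one]
    rw [h1]
    exact le_iSup₂ (f := fun (A : LineBundle Γ) (_ : A ∈ {A : LineBundle Γ | ∃ HA, IsChernForm A HA})
      => growth fun m => h0 (tensor (L.pow m) A)) (one Γ) ⟨_, chern_one⟩

theorem bot_of_not_nef (hΓ : IsTorusQuotient Γ) {L : LineBundle Γ} {H : V → V → ℂ}
    (hL : IsChernForm L H) (hn : ¬ IsNefForm H) : kod L = ⊥ ∧ num L = ⊥ ∧
      ∀ (A : LineBundle Γ) (HA : V → V → ℂ), IsChernForm A HA →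
        ∃ j0 : ℕ, ∀ j, j0 ≤ j → ∀ s, (tensor (L.pow j) A).IsSection s → s = 0 := by
  have key : ∀ (A : LineBundle Γ) (HA : V → V → ℂ), IsChernForm A HA →
        ∃ j0 : ℕ, ∀ j, j0 ≤ j → ∀ s, (tensor (L.pow j) A).IsSection s → s = 0 := by
    intro A HA hA
    unfold IsNefForm at hn
    push Not at hn
    obtain ⟨x, hx⟩ := hn
    obtain ⟨j0, hj0⟩ := exists_nat_gt ((HA x x).re / -(H x x).re)
    refine ⟨j0, fun j hj s hs => ?_⟩
    by_contra hne
    have h1 : ∃ v, s v ≠ 0 := by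
      by_contra h
      push Not at h
      exact hne (funext h)
    have h2 := nef_of_section hΓ (chern_tensor hL hA j) hs h1 x
    have h3 : ((j : ℂ) * H x x + HA x x).re = (j : ℝ) * (H x x).re + (HA x x).re := by
      have : ((j : ℕ) : ℂ) = ((j : ℝ) : ℂ) := by push_cast; rfl
      rw [Complex.add_re, this, Complex.re_ofReal_mul]
    have h2' : 0 ≤ ((j : ℂ) * H x x + HA x x).re := h2
    rw [h3] at h2'
    rw [div_lt_iff₀ (by linarith)] at hj0
    have h4 : (j0 : ℝ) ≤ j := by exact_mod_cast hj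
    nlinarith
  refine ⟨?_, ?_, key⟩
  · rw [kod, if_pos]
    intro m hm
    by_contra h
    obtain ⟨s, hs, hs0⟩ := exists_section_of_h0 h
    apply hn
    intro x
    have h2 := nef_of_section hΓ (chern_pow hL m) hs hs0 x
    have h3 : ((m : ℂ) * H x x).re = (m : ℝ) * (H x x).re := by
      have : ((m : ℕ) : ℂ) = ((m : ℝ) : ℂ) := by push_cast; rfl
      rw [this, Complex.re_ofReal_mul]
    have h2' : 0 ≤ ((m : ℂ) * H x x).re := h2
    rw [h3] at h2'
    have hm0 : (0 : ℝ) < m := by exact_mod_cast hm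
    exact nonneg_of_mul_nonneg_right h2' hm0
  · refine le_bot_iff.1 (iSup₂_le fun A hA => ?_)
    obtain ⟨HA, hHA⟩ := hA
    obtain ⟨j0, hj0⟩ := key A HA hHA
    refine (growth_bot ?_).le
    filter_upwards [eventually_ge_atTop j0] with m hm
    by_contra h
    obtain ⟨s, hs, v, hv⟩ := exists_section_of_h0 h
    exact hv (congrFun (hj0 m hm s hs) v)

end Main

end Q47.KN
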