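import Pool.Agent.TH735.AQ.MirDefs
import Pool.Agent.W594.SYZ.TQDefs

/-!
# Kodaira dimension and numerical dimension on torus quotients: definitions
-/

set_option autoImplicit false

namespace Q47.KD

open Pool.Agent.W594.SYZ2 Filter

variable {V : Type*} [NormedAddCommGroup V] [NormedSpace ℂ V] {Γ : Subgroup (V ≃ᵃ[ℂ] V)}

/-- The space of the global sections of the line bundle with the factor of automorphy `e`: the
holomorphic functions `s` with `s (γ v) = e_γ(v) s(v)`. (They form a linear space.) -/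
def Sec (e : Γ → V → ℂ) : Submodule ℂ (V → ℂ) :=
  Submodule.span ℂ {s | Differentiable ℂ s ∧
    ∀ (γ : Γ) (v : V), s ((γ : V ≃ᵃ[ℂ] V) v) = e γ v * s v}

/-- The dimension of the space of the global sections. -/
noncomputable def h0 (e : Γ → V → ℂ) : ℕ := Module.finrank ℂ (Sec e)

/-- The order of growth `limsup log f(m) / log m`; `log 0 = -∞`. -/
noncomputable def growth (f : ℕ → ℕ) : EReal :=
  limsup (fun m : ℕ => ENNReal.log (f m) / ENNReal.log m) atTop

/-- The largest `k` with `limsup f(m) / m^k > 0`. -/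
noncomputable def grow (f : ℕ → ℕ) : EReal :=
  ⨆ k ∈ {k : ℕ | 0 < limsup (fun m : ℕ => (f m : ENNReal) / (m : ENNReal) ^ k) atTop}, (k : EReal)

open Classical in
/-- The Kodaira dimension: `-∞` if `h^0(L^m) = 0` for all `m ≥ 1`, and otherwise the largest `k` with
`limsup h^0(L^m) / m^k > 0`. -/
noncomputable def kod (L : LineBundle Γ) : EReal :=
  if ∀ m : ℕ, 1 ≤ m → h0 (fun γ v => L.e γ v ^ m) = 0 then ⊥
  else grow fun m => h0 (fun γ v => L.e γ v ^ m)

/-- The numerical dimension: the supremum of `limsup log h^0(L^m ⊗ A) / log m` over the line bundles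
`A` with a Chern form. -/
noncomputable def num (L : LineBundle Γ) : EReal :=
  ⨆ A ∈ {A : LineBundle Γ | ∃ HA, IsChernForm A HA},
    growth fun m => h0 (fun γ v => L.e γ v ^ m * A.e γ v)

/-- The rank of a form: the dimension of `V` minus the dimension of the kernel. -/
noncomputable def rk (H : V → V → ℂ) : ℕ :=
  Module.finrank ℂ V - Module.finrank ℂ (Submodule.span ℂ {v | ∀ w, H v w = 0})

/-- `L` is semiample: some power `L ^ m`, `m ≥ 1`, is generated by global sections. -/
def IsSemiample (L : LineBundle Γ) : Prop :=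
  ∃ m : ℕ, 1 ≤ m ∧ ∀ v : V, ∃ s ∈ Sec (fun γ v => L.e γ v ^ m), s v ≠ 0

/-- The exponent `4 ((3 ^ (4 d ^ 2))!) ^ 3`. -/
def N (d : ℕ) : ℕ := 4 * (3 ^ (2 * d) ^ 2).factorial ^ 3

end Q47.KD
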