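import Pool.Agent.Q47.KN.Dims
import Pool.Agent.Q47.KN.Defs

/-!
# Kodaira dimension and numerical dimension on torus quotients
-/

set_option autoImplicit false

namespace Q47.KN

open Pool.Agent.W594.SYZ2 Pool.Agent.W594.SYZ2.TQ Pool.Agent.TH735.AQ Q47.EB Q47.MM
open Pool.Agent.Helper857 Filter Topology

variable {V : Type*} [NormedAddCommGroup V] [NormedSpace ℂ V]
variable {Γ : Subgroup (V ≃ᵃ[ℂ] V)}

theorem sec_eq (L : LineBundle Γ) : KD.Sec L.e = sec L := by
  rw [KD.Sec]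
  have h1 : {s : V → ℂ | Differentiable ℂ s ∧
      ∀ (γ : Γ) (v : V), s ((γ : V ≃ᵃ[ℂ] V) v) = L.e γ v * s v} = (sec L : Set (V → ℂ)) := by
    ext s
    exact ⟨fun h => ⟨h.1, h.2⟩, fun h => ⟨h.holo, h.eq⟩⟩
  rw [h1]
  exact Submodule.span_eq _

theorem h0_eq (L : LineBundle Γ) : KD.h0 L.e = h0 L := by rw [KD.h0, sec_eq, h0]

theorem h0_pow (L : LineBundle Γ) (m : ℕ) : KD.h0 (fun γ v => L.e γ v ^ m) = h0 (L.pow m) :=
  h0_eq (L.pow m)

theorem h0_tensor (L A : LineBundle Γ) (m : ℕ) :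
    KD.h0 (fun γ v => L.e γ v ^ m * A.e γ v) = h0 (tensor (L.pow m) A) :=
  h0_eq (tensor (L.pow m) A)

theorem kod_eq (L : LineBundle Γ) : KD.kod L = kod L := by
  have h1 : (fun m => KD.h0 (fun γ v => L.e γ v ^ m)) = fun m => h0 (L.pow m) :=
    funext fun m => h0_pow L m
  have h2 : KD.grow = grow := rfl
  rw [KD.kod, kod, h1, h2]
  by_cases h : ∀ m : ℕ, 1 ≤ m → h0 (L.pow m) = 0
  · rw [if_pos h, if_pos fun m hm => (h0_pow L m).trans (h m hm)]
  · rw [if_neg h, if_neg fun h' => h fun m hm => (h0_pow L m).symm.trans (h' m hm)]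

theorem num_eq' (L : LineBundle Γ) : KD.num L = num L := by
  simp only [KD.num, num, h0_tensor]
  rfl

theorem rk_eq [FiniteDimensional ℂ V] {H : V → V → ℂ} (hH : IsHermitian H) :
    KD.rk H = rank hH := by
  have h1 : Submodule.span ℂ {v | ∀ w, H v w = 0} = ker hH := Submodule.span_eq (ker hH)
  rw [KD.rk, h1, rank]
  have := Submodule.finrank_quotient_add_finrank (ker hH)
  omega

theorem semi_iff (L : LineBundle Γ) : KD.IsSemiample L ↔ ∃ m : ℕ, 1 ≤ m ∧ GG (L.pow m) := by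
  refine exists_congr fun m => and_congr_right fun _ => forall_congr' fun v => ?_
  have h1 : KD.Sec (fun γ v => L.e γ v ^ m) = sec (L.pow m) := sec_eq (L.pow m)
  rw [h1]
  exact ⟨fun ⟨s, hs, h⟩ => ⟨s, hs, h⟩, fun ⟨s, hs, h⟩ => ⟨s, hs, h⟩⟩

/-- The inverse line bundle. -/
noncomputable def inv (P : LineBundle Γ) : LineBundle Γ where
  e := fun γ v => (P.e γ v)⁻¹
  holo := fun γ v => (P.holo γ v).inv (P.ne_zero γ v)
  ne_zero := fun γ v => inv_ne_zero (P.ne_zero γ v)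
  mul := fun γ δ v => by rw [P.mul, mul_inv]
  stab := fun γ v h => by rw [P.stab γ v h, inv_one]

theorem chern_inv_flat {P : LineBundle Γ} (hP : IsFlat P) : IsChernForm (inv P) fun _ _ => 0 := by
  refine ⟨⟨fun _ _ _ => (add_zero _).symm, fun _ _ _ => (mul_zero _).symm, fun _ _ => by simp⟩,
    fun _ => 0, differentiable_const 0, fun γ v => ?_⟩
  change ‖(P.e γ v)⁻¹‖ ^ 2 = _
  rw [norm_inv, hP.2 γ v]
  simp

variable [FiniteDimensional ℂ V]

/-- A line bundle with a nonzero section is semiample. -/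
theorem gg_of_section (hΓ : IsTorusQuotient Γ) {ρ : V → ℂ} (hρ : IsRamification Γ ρ)
    {L : LineBundle Γ} {H : V → V → ℂ} (hL : IsChernForm L H) {s : V → ℂ} (hs : L.IsSection s)
    (hs0 : ∃ v, s v ≠ 0) : GG (L.pow (expo (Module.finrank ℂ V))) := by
  have hn := nef_of_section hΓ hL hs hs0
  obtain ⟨hH, F, hF, hFe⟩ := hL
  refine gg_of_pair (m := 0) hΓ hH ⟨hF, hFe⟩ hρ hs.holo hs0 (fun γ v => ?_) hn
  rw [hs.eq, pow_zero, pow_zero, pow_zero]
  ring

omit [FiniteDimensional ℂ V] in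
theorem gg_of_induces {n : ℕ} {Δ : Subgroup ((Fin n → ℂ) ≃ᵃ[ℂ] (Fin n → ℂ))}
    {π : V →ₗ[ℂ] (Fin n → ℂ)} [FiniteDimensional ℂ V] (hfib : IsFibration Γ Δ π)
    {Q : LineBundle Γ} (h : Induces Q Δ π) : ∃ N : ℕ, 1 ≤ N ∧ GG (Q.pow N) := by
  obtain ⟨m, hm, A, HA, hA, hpA, h, hh, hh0, he⟩ := h
  have := finite_Lin hfib.base
  have hg := ample_gg hfib.base hA hpA
  set k := 4 * Nat.card (Lin Δ) with hk
  have hk1 : 1 ≤ k := Nat.mul_pos (by norm_num) Nat.card_pos
  have hπ : Differentiable ℂ fun v => π v := by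
    have h1 : (fun v => π v) = LinearMap.toContinuousLinearMap π := rfl
    rw [h1]
    exact ContinuousLinearMap.differentiable _
  refine ⟨m * k, Nat.mul_pos hm hk1, fun v => ?_⟩
  obtain ⟨s, hs, hs0⟩ := hg (π v)
  refine ⟨fun v => s (π v) * (h v ^ k)⁻¹, ⟨?_, ?_⟩,
    mul_ne_zero hs0 (inv_ne_zero (pow_ne_zero _ (hh0 v)))⟩
  · refine (hs.holo.comp hπ).mul fun v => ?_
    exact ((hh.pow k) v).inv (pow_ne_zero _ (hh0 v))
  · intro γ v
    obtain ⟨δ, hδ, hδe⟩ := hfib.maps γ γ.2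
    have h1 := hs.eq ⟨δ, hδ⟩ (π v)
    have h2 : ((⟨δ, hδ⟩ : Δ) : (Fin n → ℂ) ≃ᵃ[ℂ] (Fin n → ℂ)) (π v)
        = π ((γ : V ≃ᵃ[ℂ] V) v) := hδe v
    rw [h2] at h1
    have h3 := he γ ⟨δ, hδ⟩ hδe v
    change s (π ((γ : V ≃ᵃ[ℂ] V) v)) * (h ((γ : V ≃ᵃ[ℂ] V) v) ^ k)⁻¹
      = Q.e γ v ^ (m * k) * (s (π v) * (h v ^ k)⁻¹)
    have h4 : A.e ⟨δ, hδ⟩ (π v) ^ k * h v ^ k
        = h ((γ : V ≃ᵃ[ℂ] V) v) ^ k * Q.e γ v ^ (m * k) := by
      rw [← mul_pow, ← h3, mul_pow]
      congr 1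
      exact (pow_mul (Q.e γ v) m k).symm
    have h5 : ((A.pow k).e ⟨δ, hδ⟩ (π v)) = A.e ⟨δ, hδ⟩ (π v) ^ k := rfl
    rw [h1, h5]
    have n1 := pow_ne_zero k (hh0 v)
    have n2 := pow_ne_zero k (hh0 ((γ : V ≃ᵃ[ℂ] V) v))
    field_simp
    linear_combination s (π v) * h4

/-- Multiplication with a section. -/
theorem h0_le_of_mul (hΓ : IsTorusQuotient Γ) {M N' : LineBundle Γ} {H : V → V → ℂ}
    (hN : IsChernForm N' H) {T : LineBundle Γ} {t : V → ℂ}
    (ht : T.IsSection t) (ht0 : ∃ v, t v ≠ 0) (he : ∀ γ v, N'.e γ v = M.e γ v * T.e γ v) :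
    h0 M ≤ h0 N' := by
  have := finite_sec hΓ hN
  let f : sec M →ₗ[ℂ] sec N' :=
    { toFun := fun s => ⟨fun v => s.1 v * t v, s.2.holo.mul ht.holo, fun γ v => by
        rw [he]
        have e1 : s.1 ((γ : V ≃ᵃ[ℂ] V) v) = M.e γ v * s.1 v := s.2.eq γ v
        rw [e1, ht.eq]
        ring⟩
      map_add' := fun s s' => Subtype.ext (funext fun v => add_mul _ _ _)
      map_smul' := fun c s => Subtype.ext (funext fun v => mul_assoc _ _ _) }
  have hf : Function.Injective f := by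
    rw [injective_iff_map_eq_zero]
    intro s hs
    by_contra hne
    have h1 : ∃ v, s.1 v ≠ 0 := by
      by_contra h
      push Not at h
      exact hne (Subtype.ext (funext h))
    obtain ⟨v, hv, hv'⟩ := exists_common s.2.holo ht.holo h1 ht0
    have h2 : s.1 v * t v = 0 := congrFun (congrArg Subtype.val hs) v
    exact mul_ne_zero hv hv' h2
  exact LinearMap.finrank_le_finrank_of_injective hf

/-- The numerical dimension of nef line bundles on projective torus quotients. -/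
theorem growth_ample (hΓ : IsTorusQuotient Γ) {L : LineBundle Γ} {H : V → V → ℂ}
    (hL : IsChernForm L H) (hn : IsNefForm H) {A : LineBundle Γ} {HA : V → V → ℂ}
    (hA : IsChernForm A HA) (hp : IsPositiveForm HA) :
    growth (fun m => h0 (tensor (L.pow m) (A.pow (expo (Module.finrank ℂ V))))) = rank hL.1 := by
  obtain ⟨k, P, hk, hP, n, Δ, π, hker, hfib, hind⟩ := numerical hΓ hL hn
  obtain ⟨N, hN, hg⟩ := gg_of_induces hfib hind
  have := finite_Lin hΓ
  set E := expo (Module.finrank ℂ V) with hE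
  have hE1 : 1 ≤ E := expo_pos _
  have hEd : 4 * Nat.card (Lin Γ) ∣ E := by
    have h1 : 4 * Nat.card (Lin Γ) ∣ 4 * mink (Module.finrank ℂ V) :=
      Nat.mul_dvd_mul (dvd_refl 4) (card_Lin_dvd hΓ)
    refine h1.trans ⟨mink (Module.finrank ℂ V) ^ 2, ?_⟩
    rw [hE, expo]
    ring
  -- the Chern form of the twisted line bundle
  set Q := tensor (L.pow k) P with hQ
  have hkR : (0 : ℝ) < k := by exact_mod_cast hk
  have hre : ∀ (j : ℕ) (z : ℂ), ((j : ℂ) * z).re = (j : ℝ) * z.re := fun j z => by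
    have : ((j : ℕ) : ℂ) = ((j : ℝ) : ℂ) := by push_cast; rfl
    rw [this, Complex.re_ofReal_mul]
  have hQc : IsChernForm Q fun v w => (k : ℂ) * H v w :=
    Pool.Agent.TH735.AQ.chern_tensor hL hP k
  have hQn : IsNefForm fun v w => (k : ℂ) * H v w := fun v => by
    rw [hre]
    exact mul_nonneg hkR.le (hn v)
  have hrk : rank hQc.1 = rank hL.1 := by
    have h1 : ker hQc.1 = ker hL.1 := by
      ext v
      have hk0 : (k : ℂ) ≠ 0 := by exact_mod_cast (by omega : k ≠ 0)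
      refine forall_congr' fun w => ⟨fun h => (mul_eq_zero.1 h).resolve_left hk0, fun h => by
        change (k : ℂ) * H v w = 0
        rw [h, mul_zero]⟩
    rw [rank, rank, h1]
  obtain ⟨c, hc, hfreq⟩ := freq_of (f := fun m => h0 (tensor (L.pow m) (A.pow E)))
    (r := rank hL.1) (a := E) (E := k * N * E) (Nat.mul_pos (Nat.mul_pos hk hN) hE1) hE1
    fun i _ => by
      have h1 := lower hΓ hQc hQn hN hg (E * i)
      rw [hrk] at h1
      refine h1.trans ?_
      have hB : IsChernForm (tensor ((inv P).pow (N * i)) A)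
          fun v w => ((N * i : ℕ) : ℂ) * 0 + HA v w := Q47.KN.chern_tensor (chern_inv_flat hP) hA _
      obtain ⟨t, ht, ht0⟩ := (ample_gg hΓ hB (fun v hv => by
        have h2 := hp v hv
        simpa using h2)).mul hEd 0
      refine h0_le_of_mul hΓ (Q47.KN.chern_tensor hL (chern_pow hA E) _) ht ⟨0, ht0⟩
        fun γ v => ?_
      have hPn := P.ne_zero γ v
      change L.e γ v ^ (k * N * E * i) * A.e γ v ^ E
        = (L.e γ v ^ k * P.e γ v) ^ (N * (E * i)) * (((P.e γ v)⁻¹ ^ (N * i) * A.e γ v)) ^ E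
      rw [mul_pow, mul_pow, ← pow_mul, ← pow_mul, inv_pow]
      have e1 : k * (N * (E * i)) = k * N * E * i := by ring
      have e2 : N * i * E = N * (E * i) := by ring
      rw [e1, e2]
      have := pow_ne_zero (N * (E * i)) hPn
      field_simp
  refine le_antisymm ?_ (le_growth hc hfreq)
  obtain ⟨D, hD⟩ := upper' hΓ hL (chern_pow hA E)
  exact growth_le fun m hm => (hD m hm).2

/-- The numerical dimension of nef line bundles on projective torus quotients. -/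
theorem num_eq (hΓ : IsTorusQuotient Γ) {L : LineBundle Γ} {H : V → V → ℂ}
    (hL : IsChernForm L H) (hn : IsNefForm H) {A : LineBundle Γ} {HA : V → V → ℂ}
    (hA : IsChernForm A HA) (hp : IsPositiveForm HA) : num L = rank hL.1 := by
  refine le_antisymm (num_le hΓ hL) ?_
  rw [← growth_ample hΓ hL hn hA hp]
  exact le_iSup₂ (f := fun (A : LineBundle Γ) (_ : A ∈ {A : LineBundle Γ | ∃ HA, IsChernForm A HA})
      => growth fun m => h0 (tensor (L.pow m) A)) _ ⟨_, chern_pow hA _⟩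

/-- The Kodaira dimension of a line bundle. -/
theorem kod_cases (hΓ : IsTorusQuotient Γ) {ρ : V → ℂ} (hρ : IsRamification Γ ρ)
    {L : LineBundle Γ} {H : V → V → ℂ} (hL : IsChernForm L H) :
    (kod L = ⊥ ∧ ∀ m : ℕ, 1 ≤ m → ¬ GG (L.pow m)) ∨
      (kod L = rank hL.1 ∧ num L = rank hL.1 ∧ IsNefForm H ∧ ∃ m : ℕ, 1 ≤ m ∧ GG (L.pow m)) := by
  by_cases h : ∀ m : ℕ, 1 ≤ m → h0 (L.pow m) = 0
  · left
    refine ⟨by rw [kod, if_pos h], fun m hm hg => ?_⟩
    obtain ⟨s, hs, hs0⟩ := hg 0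
    have := finite_sec hΓ (chern_pow hL m)
    exact h0_ne_zero hs ⟨0, hs0⟩ (h m hm)
  · right
    push Not at h
    obtain ⟨m, hm, h⟩ := h
    obtain ⟨s, hs, hs0⟩ := exists_section_of_h0 h
    have hg := gg_of_section hΓ hρ (chern_pow hL m) hs hs0
    rw [pow_pow] at hg
    have hE := expo_pos (Module.finrank ℂ V)
    have hn : IsNefForm H := by
      intro x
      have h2 := nef_of_section hΓ (chern_pow hL m) hs hs0 x
      have h3 : ((m : ℂ) * H x x).re = (m : ℝ) * (H x x).re := by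
        have : ((m : ℕ) : ℂ) = ((m : ℝ) : ℂ) := by push_cast; rfl
        rw [this, Complex.re_ofReal_mul]
      have h2' : 0 ≤ ((m : ℂ) * H x x).re := h2
      rw [h3] at h2'
      have hm0 : (0 : ℝ) < m := by exact_mod_cast hm
      exact nonneg_of_mul_nonneg_right h2' hm0
    have h4 := eq_of_gg hΓ hL hn (Nat.mul_pos hm hE) hg
    exact ⟨h4.1, h4.2, hn, _, Nat.mul_pos hm hE, hg⟩

end Q47.KN
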