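import Pool.Agent.Q47.KN.Lap
import Pool.Agent.Q47.MM.Cls
import Pool.Agent.Helper857.A1

/-!
# Positive line bundles have many sections
-/

set_option autoImplicit false

namespace Q47.KN

open Pool.Agent.W594.SYZ2 Pool.Agent.W594.SYZ2.TQ Pool.Agent.TH735.AQ Q47.EB Q47.MM
open Pool.Agent.Helper857 Filter Topology

variable {W : Type*} [NormedAddCommGroup W] [NormedSpace ℂ W] [FiniteDimensional ℂ W]
  {Δ : Subgroup (W ≃ᵃ[ℂ] W)} {L : LineBundle Δ} {H : W → W → ℂ} {F : W → ℂ}

/-- A globally generated line bundle is globally generated by finitely many sections. -/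
theorem finite_gg (hΔ : IsTorusQuotient Δ) (hg : GG L) :
    ∃ (t : Finset W) (s : t → W → ℂ), (∀ i, L.IsSection (s i)) ∧ ∀ y, ∃ i, s i y ≠ 0 := by
  choose s hs hs0 using hg
  have : ProperSpace W := FiniteDimensional.proper ℂ W
  obtain ⟨C, hC⟩ := cobounded (latt Δ) hΔ.span_top
  obtain ⟨t, -, ht⟩ := (isCompact_closedBall (0 : W) C).elim_nhds_subcover
    (fun y => {x | s y x ≠ 0}) (fun y _ =>
      (isOpen_ne_fun (hs y).holo.continuous continuous_const).mem_nhds (hs0 y))
  refine ⟨t, fun i => s i, fun i => hs i, fun y => ?_⟩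
  obtain ⟨b, hb, hbC⟩ := hC y
  have h1 := ht (show b + y ∈ Metric.closedBall (0 : W) C by rwa [mem_closedBall_zero_iff])
  simp only [Set.mem_iUnion] at h1
  obtain ⟨i, hi, h2⟩ := h1
  refine ⟨⟨i, hi⟩, fun h0 => h2 ?_⟩
  have h3 := (hs i).eq (tr b hb) y
  rw [tr_apply] at h3
  change s i (b + y) = 0
  rw [h3]
  have h0' : s i y = 0 := h0
  rw [h0', mul_zero]

/-- At a point where the length of the sections is minimal their ratios separate tangent vectors. -/
theorem immersion (hΔ : IsTorusQuotient Δ) (hH : IsHermitian H) (hpot : IsPot L H F)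
    {ι : Type*} [Fintype ι] {s : ι → W → ℂ}
    (hs : ∀ i, L.IsSection (s i)) (h0 : ∀ y, ∃ i, s i y ≠ 0) :
    ∃ y0 : W, ∀ x : W, 0 < (H x x).re → ∀ lam : ℂ, ∃ i, fderiv ℂ (s i) y0 x ≠ lam * s i y0 := by
  have hF := hpot.1
  have : ProperSpace W := FiniteDimensional.proper ℂ W
  let u : ι → W → ℂ := fun i v => s i v * Complex.exp (-F v)
  have hu : ∀ i, Differentiable ℂ (u i) := fun i => (hs i).holo.mul hF.neg.cexp
  have hut : ∀ i (γ : Δ) (v : W), u i ((γ : W ≃ᵃ[ℂ] W) v) = tw L F γ v * u i v := by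
    intro i γ v
    simp only [u, tw]
    rw [(hs i).eq, Complex.exp_sub, Complex.exp_neg, Complex.exp_neg]
    field_simp
  let S : W → ℝ := fun v => ∑ i, ‖u i v‖ ^ 2
  let φ : W → ℝ := fun v => S v * Real.exp (-(Real.pi * (H v v).re))
  have hSc : Continuous S := continuous_finsetSum _ fun i _ => (hu i).continuous.norm.pow 2
  have hper : ∀ b ∈ latt Δ, ∀ v, φ (b + v) = φ v := by
    intro b hb v
    change S (b + v) * Real.exp (-(Real.pi * (H (b + v) (b + v)).re))
      = S v * Real.exp (-(Real.pi * (H v v).re))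
    have e1 : S (b + v) = ‖tw L F (tr b hb) v‖ ^ 2 * S v := by
      simp only [S, Finset.mul_sum]
      refine Finset.sum_congr rfl fun i _ => ?_
      have := hut i (tr b hb) v
      rw [tr_apply] at this
      rw [this, norm_mul, mul_pow]
    rw [e1, tw_norm hpot, tr_apply, mul_sub, Real.exp_sub, Real.exp_neg, Real.exp_neg]
    field_simp
  have hφc : Continuous φ := hSc.mul
    (Real.continuous_exp.comp ((diag_continuous hH).const_mul Real.pi).neg)
  obtain ⟨C, hC⟩ := cobounded (latt Δ) hΔ.span_top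
  have hK : IsCompact (Metric.closedBall (0 : W) C) := isCompact_closedBall _ _
  obtain ⟨b0, hb0, hbC0⟩ := hC 0
  obtain ⟨y0, hy0, hmin⟩ := hK.exists_isMinOn
    ⟨b0 + 0, by rwa [mem_closedBall_zero_iff]⟩ hφc.continuousOn
  have hlow : ∀ v, φ y0 ≤ φ v := by
    intro v
    obtain ⟨b, hb, hbC⟩ := hC v
    rw [← hper b hb v]
    exact hmin (by rwa [mem_closedBall_zero_iff])
  refine ⟨y0, fun x hx lam => ?_⟩
  by_contra hcon
  push Not at hcon
  have hline : Differentiable ℂ fun z : ℂ => y0 + z • x :=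
    (differentiable_id.smul_const x).const_add y0
  have hld : HasDerivAt (fun z : ℂ => y0 + z • x) x 0 := by
    simpa using ((hasDerivAt_id (0 : ℂ)).smul_const x).const_add y0
  have hcomp : ∀ {f : W → ℂ}, Differentiable ℂ f →
      HasDerivAt (fun z : ℂ => f (y0 + z • x)) (fderiv ℂ f y0 x) 0 := by
    intro f hf
    have h5 : HasFDerivAt f (fderiv ℂ f y0) (y0 + (0 : ℂ) • x) := by
      simpa using (hf y0).hasFDerivAt
    exact h5.comp_hasDerivAt (0 : ℂ) hld
  set μ : ℂ := lam - fderiv ℂ F y0 x with hμ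
  let g : ι → ℂ → ℂ := fun i z => s i (y0 + z • x) * Complex.exp (-F (y0 + z • x) - μ * z)
  have hg : ∀ i, Differentiable ℂ (g i) := by
    intro i
    have e1 : Differentiable ℂ fun z : ℂ => F (y0 + z • x) := hF.comp hline
    have e2 : Differentiable ℂ fun z : ℂ => -F (y0 + z • x) - μ * z :=
      e1.neg.sub (differentiable_id.const_mul μ)
    exact ((hs i).holo.comp hline).mul e2.cexp
  have hg0 : ∀ i, deriv (g i) 0 = 0 := by
    intro i
    have e1 := hcomp (hs i).holo
    have e2 : HasDerivAt (fun z : ℂ => -F (y0 + z • x) - μ * z) (-(fderiv ℂ F y0 x) - μ) 0 := by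
      have e3 := (hcomp hF).neg.sub ((hasDerivAt_id (0 : ℂ)).const_mul μ)
      rw [mul_one] at e3
      exact e3
    have e4 := (e1.mul e2.cexp).deriv
    have e5 : deriv (g i) 0 = _ := e4
    rw [e5, hcon i, hμ]
    simp only [zero_smul, add_zero]
    ring
  have hnorm : ∀ z, ∑ i, ‖g i z‖ ^ 2 = φ (y0 + z • x) *
      Real.exp (Real.pi * (H (y0 + z • x) (y0 + z • x)).re - 2 * (μ * z).re) := by
    intro z
    have e1 : ∀ i, ‖g i z‖ ^ 2 = ‖u i (y0 + z • x)‖ ^ 2 * Real.exp (-(2 * (μ * z).re)) := by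
      intro i
      have e2 : g i z = u i (y0 + z • x) * Complex.exp (-(μ * z)) := by
        simp only [g, u]
        rw [mul_assoc, ← Complex.exp_add]
        congr 2
      rw [e2, norm_mul, mul_pow, Complex.norm_exp, Complex.neg_re, ← Real.exp_nat_mul]
      congr 2
      push_cast
      ring
    simp only [φ, S]
    rw [Finset.sum_congr rfl fun i _ => e1 i, ← Finset.sum_mul, mul_assoc, ← Real.exp_add]
    congr 2
    ring
  set h := (H x x).re with hh
  have hhpos : 0 < h := hx
  have hdiag : ∀ z : ℂ, (H (y0 + z • x) (y0 + z • x)).re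
      = (H y0 y0).re + ‖z‖ ^ 2 * h + 2 * (z * H x y0).re := by
    intro z
    rw [add_comm y0, h_diag_add hH, h_diag_smul hH, hH.smul_left]
    ring
  have h1 := four_points hg hg0 (κ := Real.pi * h) (by positivity)
    (2 * Real.pi * H x y0 - 2 * μ) (by
      intro z
      rw [hnorm z, hnorm 0, zero_smul, add_zero, mul_zero, Complex.zero_re, mul_zero, sub_zero,
        mul_assoc, ← Real.exp_add]
      have e1 : Real.pi * (H y0 y0).re + (Real.pi * h * ‖z‖ ^ 2
          + ((2 * Real.pi * H x y0 - 2 * μ) * z).re)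
          = Real.pi * (H (y0 + z • x) (y0 + z • x)).re - 2 * (μ * z).re := by
        rw [hdiag]
        have e2 : ((2 * Real.pi * H x y0 - 2 * μ) * z).re
            = 2 * Real.pi * (z * H x y0).re - 2 * (μ * z).re := by
          have e3 : (2 * Real.pi * H x y0 - 2 * μ) * z
              = ((2 * Real.pi : ℝ) : ℂ) * (z * H x y0) - ((2 : ℝ) : ℂ) * (μ * z) := by
            push_cast
            ring
          rw [e3, Complex.sub_re, Complex.re_ofReal_mul, Complex.re_ofReal_mul]
        rw [e2]
        ring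
      rw [e1]
      exact mul_le_mul_of_nonneg_right (hlow _) (Real.exp_pos _).le)
  obtain ⟨i, hi⟩ := h0 y0
  apply hi
  have h2 := h1 i
  simp only [g, zero_smul, add_zero] at h2
  exact (mul_eq_zero.1 h2).resolve_right (Complex.exp_ne_zero _)

/-- Selection of coordinates. -/
theorem select {ι : Type*} [Fintype ι] (D : W →ₗ[ℂ] (ι → ℂ)) (hD : Function.Injective D) :
    ∃ (κ : Type) (_ : Fintype κ) (a : κ → ι), Fintype.card κ = Module.finrank ℂ W ∧
      Function.Bijective fun (x : W) (l : κ) => D x (a l) := by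
  let φ : ι → Module.Dual ℂ W := fun i => (LinearMap.proj i).comp D
  obtain ⟨κ, a, hinj, hspan, hli⟩ := exists_linearIndependent' ℂ φ
  have hfin : Finite κ := Finite.of_injective a hinj
  have : Fintype κ := Fintype.ofFinite κ
  let E : W →ₗ[ℂ] (κ → ℂ) := LinearMap.pi fun l => φ (a l)
  have hE : Function.Injective E := by
    rw [injective_iff_map_eq_zero]
    intro x hx
    apply (injective_iff_map_eq_zero D).1 hD
    funext i
    have h1 : φ i ∈ Submodule.span ℂ (Set.range (φ ∘ a)) := by
      rw [hspan]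
      exact Submodule.subset_span ⟨i, rfl⟩
    have h2 : ∀ ψ ∈ Submodule.span ℂ (Set.range (φ ∘ a)), ψ x = 0 := by
      intro ψ hψ
      induction hψ using Submodule.span_induction with
      | mem ψ hψ =>
        obtain ⟨l, rfl⟩ := hψ
        exact congrFun hx l
      | zero => rfl
      | add ψ ψ' _ _ h h' => rw [LinearMap.add_apply, h, h', add_zero]
      | smul c ψ _ h => rw [LinearMap.smul_apply, h, smul_zero]
    exact h2 _ h1
  have hc1 : Module.finrank ℂ W ≤ Fintype.card κ := by
    have := LinearMap.finrank_le_finrank_of_injective hE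
    rwa [Module.finrank_fintype_fun_eq_card] at this
  have hc2 : Fintype.card κ ≤ Module.finrank ℂ W := by
    have := hli.fintype_card_le_finrank
    rwa [Subspace.dual_finrank_eq] at this
  have hcard := le_antisymm hc2 hc1
  have hbij : Function.Bijective E := by
    refine ⟨hE, (LinearMap.injective_iff_surjective_of_finrank_eq_finrank ?_).1 hE⟩
    rw [Module.finrank_fintype_fun_eq_card, hcard]
  let e := Fintype.equivFin κ
  refine ⟨Fin (Fintype.card κ), inferInstance, a ∘ e.symm, by rw [Fintype.card_fin, hcard], ?_⟩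
  have h3 : (fun (x : W) (l : Fin (Fintype.card κ)) => D x ((a ∘ e.symm) l))
      = (fun (y : κ → ℂ) (l : Fin (Fintype.card κ)) => y (e.symm l)) ∘ E := rfl
  rw [h3]
  refine Function.Bijective.comp ?_ hbij
  exact (Equiv.arrowCongr e (Equiv.refl ℂ)).bijective

omit [NormedSpace ℂ W] [FiniteDimensional ℂ W] in
/-- Monomials in functions which are open at a point are independent. -/
theorem monomials_indep {κ : Type*} [Fintype κ] [DecidableEq κ] {f : W → κ → ℂ} {y0 : W}
    (hf : Filter.map f (𝓝 y0) = 𝓝 (f y0)) {q : ℕ} {c : (κ → Fin q) → ℂ}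
    (h : ∀ᶠ y in 𝓝 y0, ∑ α, c α * ∏ l, f y l ^ (α l : ℕ) = 0) : c = 0 := by
  let P : MvPolynomial κ ℂ :=
    ∑ α : κ → Fin q, MvPolynomial.monomial (Finsupp.equivFunOnFinite.symm fun l => (α l : ℕ)) (c α)
  have hP : ∀ z : κ → ℂ, MvPolynomial.eval z P = ∑ α, c α * ∏ l, z l ^ (α l : ℕ) := by
    intro z
    simp only [P, map_sum, MvPolynomial.eval_monomial]
    refine Finset.sum_congr rfl fun α _ => ?_
    congr 1
    rw [Finsupp.prod_fintype _ _ (fun i => pow_zero _)]
    rfl
  have h1 : ∀ᶠ z in 𝓝 (f y0), MvPolynomial.eval z P = 0 := by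
    rw [← hf, Filter.eventually_map]
    filter_upwards [h] with y hy
    rw [hP, hy]
  obtain ⟨ε, hε, hball⟩ := Metric.eventually_nhds_iff_ball.1 h1
  have hP0 : P = 0 := by
    have hinf : ∀ l, (Metric.ball (f y0 l) ε).Infinite := fun l =>
      infinite_of_mem_nhds _ (Metric.ball_mem_nhds _ hε)
    refine MvPolynomial.funext_set (fun l => Metric.ball (f y0 l) ε) hinf ?_
    intro z hz
    rw [map_zero]
    apply hball
    rw [Metric.mem_ball, dist_pi_lt_iff hε]
    exact fun l => hz l trivial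
  funext α
  have h2 : MvPolynomial.coeff (Finsupp.equivFunOnFinite.symm fun l => (α l : ℕ)) P = 0 := by
    rw [hP0, MvPolynomial.coeff_zero]
  simp only [P, MvPolynomial.coeff_sum, MvPolynomial.coeff_monomial] at h2
  rw [Finset.sum_eq_single α] at h2
  · rwa [if_pos rfl] at h2
  · intro β _ hne
    rw [if_neg]
    intro heq
    apply hne
    funext l
    have := congrFun (Finsupp.equivFunOnFinite.symm.injective heq) l
    exact Fin.ext this
  · intro hmem
    exact absurd (Finset.mem_univ α) hmem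

end Q47.KN
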