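import Pool.Agent.Q47.KN.Up

/-!
# The space of sections has finite dimension
-/

set_option autoImplicit false

namespace Q47.KN

open Pool.Agent.W594.SYZ2 Pool.Agent.W594.SYZ2.TQ Pool.Agent.TH735.AQ Q47.EB Q47.MM
open Pool.Agent.Helper857 Filter Topology

variable {V : Type*} [NormedAddCommGroup V] [NormedSpace ℂ V]
variable {Γ : Subgroup (V ≃ᵃ[ℂ] V)}

/-- The number of the coefficients of the Taylor polynomials of degree `m - 1`. -/
def jd (m n : ℕ) : ℕ := ∑ i : Fin m, n ^ (i : ℕ)

/-- The coefficients of the jets of the sections. -/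
noncomputable def jet [FiniteDimensional ℂ V] (M : LineBundle Γ) (S : Finset V) (m : ℕ) {n : ℕ}
    (b : Fin n → V) : sec M →ₗ[ℂ] (S × (Σ i : Fin m, (Fin (i : ℕ) → Fin n)) → ℂ) where
  toFun := fun s x => iteratedFDeriv ℂ (x.2.1 : ℕ) s.1 x.1.1 fun k => b (x.2.2 k)
  map_add' := fun s t => by
    funext x
    have h1 := iteratedFDeriv_add_apply (x := x.1.1) (i := (x.2.1 : ℕ))
      (contDiff_nat_of_entire (x.2.1 : ℕ) s.2.holo).contDiffAt
      (contDiff_nat_of_entire (x.2.1 : ℕ) t.2.holo).contDiffAt
    change iteratedFDeriv ℂ (x.2.1 : ℕ) (s.1 + t.1) x.1.1 _ = _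
    rw [h1]
    rfl
  map_smul' := fun c s => by
    funext x
    have h1 := iteratedFDeriv_const_smul_apply (x := x.1.1) (i := (x.2.1 : ℕ)) (a := c)
      (contDiff_nat_of_entire (x.2.1 : ℕ) s.2.holo).contDiffAt
    change iteratedFDeriv ℂ (x.2.1 : ℕ) (c • s.1) x.1.1 _ = _
    rw [h1]
    rfl

theorem jet_apply [FiniteDimensional ℂ V] {M : LineBundle Γ} {S : Finset V} {m n : ℕ}
    {b : Fin n → V} (s : sec M) (c : S) (i : Fin m) (σ : Fin (i : ℕ) → Fin n) :
    jet M S m b s (c, ⟨i, σ⟩) = iteratedFDeriv ℂ (i : ℕ) s.1 c fun k => b (σ k) := rfl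

/-- Sections which are determined by their jets at the points of a finite set. -/
theorem finrank_sec_le [FiniteDimensional ℂ V] {M : LineBundle Γ} (S : Finset V) (m : ℕ)
    (hz : ∀ s, M.IsSection s → (∀ c ∈ S, ∀ i < m, iteratedFDeriv ℂ i s c = 0) → s = 0) :
    FiniteDimensional ℂ (sec M) ∧
      Module.finrank ℂ (sec M) ≤ S.card * jd m (Module.finrank ℂ V) := by
  classical
  let b : Module.Basis (Fin (Module.finrank ℂ V)) ℂ V := Module.finBasis ℂ V
  have hJ : Function.Injective (jet M S m b) := by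
    rw [injective_iff_map_eq_zero]
    intro s hs
    have h1 : s.1 = 0 := by
      refine hz s.1 s.2 fun c hc i hi => ?_
      apply ContinuousMultilinearMap.toMultilinearMap_injective
      refine Module.Basis.ext_multilinear (fun _ => b) fun σ => ?_
      have h2 := congrFun hs (⟨c, hc⟩, ⟨⟨i, hi⟩, σ⟩)
      rw [jet_apply] at h2
      exact h2
    exact Subtype.ext h1
  refine ⟨FiniteDimensional.of_injective _ hJ, ?_⟩
  refine (LinearMap.finrank_le_finrank_of_injective hJ).trans (le_of_eq ?_)
  rw [Module.finrank_fintype_fun_eq_card, Fintype.card_prod, Fintype.card_coe,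
    Fintype.card_sigma]
  congr 1
  simp only [Fintype.card_fun, Fintype.card_fin, jd]

/-- The grid. -/
theorem exists_grid (k : ℕ) (R : ℝ) : ∃ D : ℕ, ∀ q : ℕ, 1 ≤ q → ∃ G : Finset (Fin k → ℂ),
    G.card ≤ D * q ^ (2 * k) ∧ ∀ y : Fin k → ℂ, ‖y‖ ≤ R → ∃ g ∈ G, ‖y - g‖ ≤ 1 / q := by
  classical
  obtain ⟨M0, hM0⟩ := exists_nat_ge R
  let M := M0 + 1
  refine ⟨(3 * M) ^ (2 * k), fun q hq => ?_⟩
  have hq0 : (0 : ℝ) < q := by exact_mod_cast hq
  let I : Finset ℤ := Finset.Icc (-(M * q : ℕ)) (M * q : ℕ)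
  let P : Finset (Fin k → ℤ × ℤ) := Fintype.piFinset fun _ => I ×ˢ I
  let e : (Fin k → ℤ × ℤ) → (Fin k → ℂ) := fun a l =>
    (((a l).1 : ℂ) + ((a l).2 : ℂ) * Complex.I) / q
  refine ⟨P.image e, ?_, ?_⟩
  · refine Finset.card_image_le.trans ?_
    rw [Fintype.card_piFinset]
    simp only [Finset.card_product, Finset.prod_const, Finset.card_univ, Fintype.card_fin]
    have h1 : I.card = 2 * (M * q) + 1 := by
      rw [Int.card_Icc]
      omega
    have h2 : I.card ≤ 3 * M * q := by
      rw [h1]
      have : 1 ≤ M * q := Nat.mul_pos (Nat.succ_pos _) hq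
      nlinarith
    rw [← mul_pow, pow_mul (3 * M * q), pow_two]
    exact Nat.pow_le_pow_left (Nat.mul_le_mul h2 h2) k
  · intro y hy
    have hyl : ∀ l, ‖y l‖ ≤ R := fun l => (norm_le_pi_norm y l).trans hy
    have hr : ∀ x : ℝ, |x| ≤ R → round (q * x) ∈ I := by
      intro x hx
      have h1 := abs_sub_round (q * x)
      have h2 : |(round (q * x) : ℝ)| ≤ M * q := by
        have h3 : |(round (q * x) : ℝ)| ≤ |q * x| + 1 / 2 := by
          have h4 : (round (q * x) : ℝ) = q * x - (q * x - round (q * x)) := by ring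
          rw [h4]
          exact (abs_sub _ _).trans (by linarith)
        have h5 : |(q : ℝ) * x| ≤ q * M0 := by
          rw [abs_mul, abs_of_pos hq0]
          exact mul_le_mul_of_nonneg_left (hx.trans hM0) hq0.le
        have h6 : (1 : ℝ) ≤ q := by exact_mod_cast hq
        have h7 : ((M : ℕ) : ℝ) = M0 + 1 := by simp [M]
        rw [h7]
        linarith
      have h3 := abs_le.1 h2
      rw [Finset.mem_Icc]
      constructor
      · have : (-(M * q : ℕ) : ℝ) ≤ (round (q * x) : ℝ) := by
          push_cast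
          exact h3.1
        exact_mod_cast this
      · have : (round (q * x) : ℝ) ≤ (M * q : ℕ) := by
          push_cast
          exact h3.2
        exact_mod_cast this
    let a : Fin k → ℤ × ℤ := fun l => (round (q * (y l).re), round (q * (y l).im))
    refine ⟨e a, Finset.mem_image.2 ⟨a, ?_, rfl⟩, ?_⟩
    · rw [Fintype.mem_piFinset]
      intro l
      rw [Finset.mem_product]
      exact ⟨hr _ ((Complex.abs_re_le_norm _).trans (hyl l)),
        hr _ ((Complex.abs_im_le_norm _).trans (hyl l))⟩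
    · rw [pi_norm_le_iff_of_nonneg (by positivity)]
      intro l
      have hs : ∀ x : ℝ, |x - round (q * x) / q| ≤ 1 / (2 * q) := by
        intro x
        have h1 := abs_sub_round (q * x)
        have h2 : x - round (q * x) / q = (q * x - round (q * x)) / q := by
          field_simp
        rw [h2, abs_div, abs_of_pos hq0, div_le_div_iff₀ hq0 (by positivity)]
        nlinarith
      have h3 : (y - e a) l = (((y l).re - round (q * (y l).re) / q : ℝ) : ℂ)
          + (((y l).im - round (q * (y l).im) / q : ℝ) : ℂ) * Complex.I := by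
        have h4 : y l = ((y l).re : ℂ) + ((y l).im : ℂ) * Complex.I := (Complex.re_add_im _).symm
        change y l - (((round (q * (y l).re) : ℤ) : ℂ) + ((round (q * (y l).im) : ℤ) : ℂ)
          * Complex.I) / q = _
        push_cast
        have h5 : y l - (((round (q * (y l).re) : ℤ) : ℂ) + ((round (q * (y l).im) : ℤ) : ℂ)
          * Complex.I) / q = ((y l).re : ℂ) + ((y l).im : ℂ) * Complex.I -
          (((round (q * (y l).re) : ℤ) : ℂ) + ((round (q * (y l).im) : ℤ) : ℂ)
          * Complex.I) / q := by rw [← h4]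
        rw [h5]
        ring
      rw [h3]
      refine (norm_add_le _ _).trans ?_
      rw [norm_mul, Complex.norm_I, mul_one, Complex.norm_real, Complex.norm_real,
        Real.norm_eq_abs, Real.norm_eq_abs]
      refine (add_le_add (hs _) (hs _)).trans (le_of_eq ?_)
      field_simp
      norm_num

end Q47.KN
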