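import Mathlib

/-!
# A minimum principle for families of entire functions
-/

set_option autoImplicit false

namespace Q47.KN

open Complex Filter Topology

theorem dslope_entire {g : ℂ → ℂ} (hg : Differentiable ℂ g) : Differentiable ℂ (dslope g 0) := by
  have h := (Complex.differentiableOn_dslope (f := g) (s := Set.univ) (c := 0)
    Filter.univ_mem).2 hg.differentiableOn
  exact fun z => (h z trivial).differentiableAt Filter.univ_mem

/-- Taylor's formula of second order at a critical point. -/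
theorem exists_quad {g : ℂ → ℂ} (hg : Differentiable ℂ g) (h0 : deriv g 0 = 0) :
    ∃ h : ℂ → ℂ, Continuous h ∧ ∀ z, g z = g 0 + z ^ 2 * h z := by
  refine ⟨dslope (dslope g 0) 0, (dslope_entire (dslope_entire hg)).continuous, fun z => ?_⟩
  have e1 := sub_smul_dslope g 0 z
  have e2 := sub_smul_dslope (dslope g 0) 0 z
  rw [dslope_same, h0, sub_zero, sub_zero, smul_eq_mul] at e2
  rw [sub_zero, smul_eq_mul, ← e2] at e1
  linear_combination -e1

/-- If the sum of the squares of entire functions with critical points at the origin is bounded from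
below by a Gaussian which grows, with the same value at the origin, then it vanishes there. -/
theorem four_points {ι : Type*} [Fintype ι] {g : ι → ℂ → ℂ} (hg : ∀ i, Differentiable ℂ (g i))
    (h0 : ∀ i, deriv (g i) 0 = 0) {κ : ℝ} (hκ : 0 < κ) (b : ℂ)
    (hb : ∀ z, (∑ i, ‖g i 0‖ ^ 2) * Real.exp (κ * ‖z‖ ^ 2 + (b * z).re) ≤ ∑ i, ‖g i z‖ ^ 2) :
    ∀ i, g i 0 = 0 := by
  choose h hc he using fun i => exists_quad (hg i) (h0 i)
  set S := ∑ i, ‖g i 0‖ ^ 2 with hS
  have hS0 : 0 ≤ S := Finset.sum_nonneg fun i _ => sq_nonneg _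
  -- the error
  let E : ℝ → ℝ := fun r => ∑ i, (2 * (starRingEnd ℂ (g i 0) *
    (h i (r : ℂ) - h i (I * r) + h i (-r) - h i (-(I * r)))).re +
      r ^ 2 * (‖h i (r : ℂ)‖ ^ 2 + ‖h i (I * r)‖ ^ 2 + ‖h i (-r)‖ ^ 2 + ‖h i (-(I * r))‖ ^ 2))
  have hE : Continuous E := by
    refine continuous_finsetSum _ fun i _ => ?_
    have c1 : Continuous fun r : ℝ => h i (r : ℂ) := (hc i).comp continuous_ofReal
    have c2 : Continuous fun r : ℝ => h i (I * r) :=
      (hc i).comp (continuous_const.mul continuous_ofReal)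
    have c3 : Continuous fun r : ℝ => h i (-r) := (hc i).comp continuous_ofReal.neg
    have c4 : Continuous fun r : ℝ => h i (-(I * r)) :=
      (hc i).comp (continuous_const.mul continuous_ofReal).neg
    refine Continuous.add ?_ ?_
    · exact continuous_const.mul (continuous_re.comp
        (continuous_const.mul (((c1.sub c2).add c3).sub c4)))
    · exact (continuous_pow 2).mul ((((c1.norm.pow 2).add (c2.norm.pow 2)).add
        (c3.norm.pow 2)).add (c4.norm.pow 2))
  have hE0 : E 0 = 0 := by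
    simp [E]
  have hexp : ∀ (i : ι) (z : ℂ), ‖g i z‖ ^ 2 = ‖g i 0‖ ^ 2
      + 2 * (starRingEnd ℂ (g i 0) * (z ^ 2 * h i z)).re + ‖z‖ ^ 4 * ‖h i z‖ ^ 2 := by
    intro i z
    rw [he i z, ← Complex.normSq_eq_norm_sq, Complex.normSq_add, Complex.normSq_eq_norm_sq,
      Complex.normSq_eq_norm_sq, norm_mul, norm_pow]
    have e1 : (g i 0 * starRingEnd ℂ (z ^ 2 * h i z)).re
        = (starRingEnd ℂ (g i 0) * (z ^ 2 * h i z)).re := by
      rw [← Complex.conj_re, map_mul, Complex.conj_conj]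
    rw [e1]
    ring
  have key : ∀ r : ℝ, 0 < r → 4 * S * κ ≤ E r := by
    intro r hr
    have n1 : ‖((r : ℂ))‖ = r := by rw [Complex.norm_real, Real.norm_of_nonneg hr.le]
    have n2 : ‖(I * (r : ℂ))‖ = r := by rw [norm_mul, Complex.norm_I, one_mul, n1]
    have n3 : ‖(-(r : ℂ))‖ = r := by rw [norm_neg, n1]
    have n4 : ‖(-(I * (r : ℂ)))‖ = r := by rw [norm_neg, n2]
    have b1 := hb (r : ℂ)
    have b2 := hb (I * r)
    have b3 := hb (-r)
    have b4 := hb (-(I * r))
    rw [n1] at b1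
    rw [n2] at b2
    rw [n3] at b3
    rw [n4] at b4
    have hl : ∀ x : ℝ, S * (1 + κ * r ^ 2 + x) ≤ S * Real.exp (κ * r ^ 2 + x) := by
      intro x
      refine mul_le_mul_of_nonneg_left ?_ hS0
      have := Real.add_one_le_exp (κ * r ^ 2 + x)
      linarith
    have hsum : 4 * S + 4 * S * κ * r ^ 2 ≤ (∑ i, ‖g i (r : ℂ)‖ ^ 2) + (∑ i, ‖g i (I * r)‖ ^ 2)
        + (∑ i, ‖g i (-r)‖ ^ 2) + ∑ i, ‖g i (-(I * r))‖ ^ 2 := by
      have e1 := (hl _).trans b1
      have e2 := (hl _).trans b2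
      have e3 := (hl _).trans b3
      have e4 := (hl _).trans b4
      have e5 : (b * (r : ℂ)).re + (b * (I * r)).re + (b * -r).re + (b * -(I * r)).re = 0 := by
        simp only [mul_neg, Complex.neg_re]
        ring
      nlinarith
    have hs2 : (∑ i, ‖g i (r : ℂ)‖ ^ 2) + (∑ i, ‖g i (I * r)‖ ^ 2)
        + (∑ i, ‖g i (-r)‖ ^ 2) + ∑ i, ‖g i (-(I * r))‖ ^ 2 = 4 * S + r ^ 2 * E r := by
      simp only [E, hS, Finset.mul_sum, ← Finset.sum_add_distrib]
      refine Finset.sum_congr rfl fun i _ => ?_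
      rw [hexp i (r : ℂ), hexp i (I * r), hexp i (-r), hexp i (-(I * r)), n1, n2, n3, n4]
      have q1 : (I * (r : ℂ)) ^ 2 = -((r : ℂ) ^ 2) := by
        rw [mul_pow, Complex.I_sq]; ring
      have q2 : (-(r : ℂ)) ^ 2 = (r : ℂ) ^ 2 := by ring
      have q3 : (-(I * (r : ℂ))) ^ 2 = -((r : ℂ) ^ 2) := by
        rw [neg_sq, q1]
      rw [q1, q2, q3]
      have q4 : ∀ w : ℂ, (starRingEnd ℂ (g i 0) * ((r : ℂ) ^ 2 * w)).re
          = r ^ 2 * (starRingEnd ℂ (g i 0) * w).re := by
        intro w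
        have : starRingEnd ℂ (g i 0) * ((r : ℂ) ^ 2 * w)
            = ((r ^ 2 : ℝ) : ℂ) * (starRingEnd ℂ (g i 0) * w) := by
          push_cast
          ring
        rw [this, Complex.re_ofReal_mul]
      have q5 : ∀ w : ℂ, (starRingEnd ℂ (g i 0) * (-((r : ℂ) ^ 2) * w)).re
          = -(r ^ 2 * (starRingEnd ℂ (g i 0) * w).re) := by
        intro w
        rw [← q4, ← Complex.neg_re]
        congr 1
        ring
      rw [q4, q5, q4, q5]
      simp only [mul_add, mul_sub, Complex.add_re, Complex.sub_re]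
      ring
    rw [hs2] at hsum
    have hr2 : 0 < r ^ 2 := by positivity
    have : r ^ 2 * (4 * S * κ) ≤ r ^ 2 * E r := by linarith
    exact le_of_mul_le_mul_left this hr2
  have hlim : Tendsto E (𝓝[>] 0) (𝓝 0) := by
    have := hE.tendsto 0
    rw [hE0] at this
    exact this.mono_left nhdsWithin_le_nhds
  have hle : 4 * S * κ ≤ 0 :=
    ge_of_tendsto hlim (eventually_mem_nhdsWithin.mono fun r hr => key r hr)
  have hS1 : S = 0 := by
    by_contra hne
    have : 0 < S := lt_of_le_of_ne hS0 (Ne.symm hne)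
    have : 0 < 4 * S * κ := by positivity
    linarith
  intro i
  have := (Finset.sum_eq_zero_iff_of_nonneg fun i _ => sq_nonneg _).1 hS1 i (Finset.mem_univ i)
  exact norm_eq_zero.1 (pow_eq_zero_iff two_ne_zero |>.1 this)

end Q47.KN
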