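import Pool.Agent.Q47.KN.Imm

/-!
# The lower bound for the number of sections
-/

set_option autoImplicit false

namespace Q47.KN

open Pool.Agent.W594.SYZ2 Pool.Agent.W594.SYZ2.TQ Pool.Agent.TH735.AQ Q47.EB Q47.MM
open Pool.Agent.Helper857 Filter Topology

variable {W : Type*} [NormedAddCommGroup W] [NormedSpace ℂ W]
  {Δ : Subgroup (W ≃ᵃ[ℂ] W)} {L : LineBundle Δ} {H : W → W → ℂ} {F : W → ℂ}

/-- The space of the global sections. -/
def sec (L : LineBundle Δ) : Submodule ℂ (W → ℂ) where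
  carrier := {s | L.IsSection s}
  zero_mem' := ⟨differentiable_const 0, fun γ v => (mul_zero _).symm⟩
  add_mem' := fun {s t} hs ht => ⟨hs.holo.add ht.holo, fun γ v => by
    change s _ + t _ = _ * (s v + t v)
    rw [hs.eq, ht.eq, mul_add]⟩
  smul_mem' := fun c s hs => ⟨hs.holo.const_smul c, fun γ v => by
    change c * s _ = _ * (c * s v)
    rw [hs.eq]
    ring⟩

theorem isSection_prod {κ : Type*} [Fintype κ] {s0 : W → ℂ} {s : κ → W → ℂ}
    (h0 : L.IsSection s0) (hs : ∀ l, L.IsSection (s l)) {j : ℕ} (α : κ → ℕ)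
    (hα : ∑ l, α l ≤ j) :
    (L.pow j).IsSection fun y => s0 y ^ (j - ∑ l, α l) * ∏ l, s l y ^ α l := by
  refine ⟨(h0.holo.pow _).mul (prod_holo _ _ fun l _ => (hs l).holo.pow _), fun γ v => ?_⟩
  change _ = L.e γ v ^ j * _
  rw [h0.eq]
  have h1 : ∏ l, s l ((γ : W ≃ᵃ[ℂ] W) v) ^ α l = L.e γ v ^ (∑ l, α l) * ∏ l, s l v ^ α l := by
    rw [← Finset.prod_pow_eq_pow_sum, ← Finset.prod_mul_distrib]
    exact Finset.prod_congr rfl fun l _ => by rw [(hs l).eq, mul_pow]
  rw [h1, mul_pow]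
  have h2 : L.e γ v ^ j = L.e γ v ^ (j - ∑ l, α l) * L.e γ v ^ (∑ l, α l) := by
    rw [← pow_add, Nat.sub_add_cancel hα]
  rw [h2]
  ring

/-- A globally generated line bundle has many sections. -/
theorem many_sections [FiniteDimensional ℂ W] (hΔ : IsTorusQuotient Δ) (hH : IsHermitian H)
    (hpot : IsPot L H F) (U : Submodule ℂ W) (hp : ∀ x ∈ U, x ≠ 0 → 0 < (H x x).re) (hg : GG L)
    (j : ℕ) :
    ∃ (κ : Type) (_ : Fintype κ) (t : κ → W → ℂ), (∀ α, (L.pow j).IsSection (t α)) ∧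
      LinearIndependent ℂ t ∧ Fintype.card κ = (j / Module.finrank ℂ U + 1) ^ Module.finrank ℂ U := by
  classical
  obtain ⟨T, s, hs, hs0⟩ := finite_gg hΔ hg
  obtain ⟨y0, hy0⟩ := immersion hΔ hH hpot hs hs0
  obtain ⟨i0, hi0⟩ := hs0 y0
  let D : W →ₗ[ℂ] (T → ℂ) :=
    { toFun := fun x i => fderiv ℂ (s i) y0 x * s i0 y0 - s i y0 * fderiv ℂ (s i0) y0 x
      map_add' := fun x y => by
        funext i
        simp only [map_add, Pi.add_apply]
        ring
      map_smul' := fun c x => by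
        funext i
        simp only [map_smul, Pi.smul_apply, smul_eq_mul, RingHom.id_apply]
        ring }
  have hD : Function.Injective (D.domRestrict U) := by
    rw [injective_iff_map_eq_zero]
    rintro ⟨x, hxU⟩ hx
    by_contra hne
    obtain ⟨i, hi⟩ := hy0 x (hp x hxU fun h => hne (Subtype.ext h))
      (fderiv ℂ (s i0) y0 x / s i0 y0)
    apply hi
    have h1 : fderiv ℂ (s i) y0 x * s i0 y0 - s i y0 * fderiv ℂ (s i0) y0 x = 0 := congrFun hx i
    field_simp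
    linear_combination h1
  obtain ⟨κ, _, a, hcard, hbij⟩ := select (D.domRestrict U) hD
  let f : W → κ → ℂ := fun y l => s (a l) y * (s i0 y)⁻¹
  have hd : ∀ i, HasStrictFDerivAt (s i) (fderiv ℂ (s i) y0) y0 := fun i =>
    (contDiff_omega_of_entire (hs i).holo).contDiffAt.hasStrictFDerivAt (by simp)
  have hinv : HasStrictFDerivAt (fun y => (s i0 y)⁻¹)
      (-(s i0 y0 ^ 2)⁻¹ • fderiv ℂ (s i0) y0) y0 :=
    (hasStrictDerivAt_inv hi0).comp_hasStrictFDerivAt y0 (hd i0)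
  have hf : HasStrictFDerivAt f (ContinuousLinearMap.pi fun l =>
      s (a l) y0 • (-(s i0 y0 ^ 2)⁻¹ • fderiv ℂ (s i0) y0)
        + (s i0 y0)⁻¹ • fderiv ℂ (s (a l)) y0) y0 := by
    rw [hasStrictFDerivAt_pi]
    exact fun l => (hd (a l)).mul hinv
  have hrange : (ContinuousLinearMap.pi fun l =>
      s (a l) y0 • (-(s i0 y0 ^ 2)⁻¹ • fderiv ℂ (s i0) y0)
        + (s i0 y0)⁻¹ • fderiv ℂ (s (a l)) y0 : W →L[ℂ] (κ → ℂ)).range = ⊤ := by
    rw [LinearMap.range_eq_top]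
    intro z
    obtain ⟨⟨x, hxU⟩, hx⟩ := hbij.2 fun l => s i0 y0 ^ 2 * z l
    refine ⟨x, ?_⟩
    funext l
    have h1 : fderiv ℂ (s (a l)) y0 x * s i0 y0 - s (a l) y0 * fderiv ℂ (s i0) y0 x
        = s i0 y0 ^ 2 * z l := congrFun hx l
    change s (a l) y0 * (-(s i0 y0 ^ 2)⁻¹ * fderiv ℂ (s i0) y0 x)
      + (s i0 y0)⁻¹ * fderiv ℂ (s (a l)) y0 x = z l
    field_simp
    linear_combination h1
  have hopen := hf.map_nhds_eq_of_surj hrange
  set k := Module.finrank ℂ U with hk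
  have hsum : ∀ α : κ → Fin (j / k + 1), ∑ l, (α l : ℕ) ≤ j := by
    intro α
    have h1 : ∑ l, (α l : ℕ) ≤ ∑ _l : κ, j / k :=
      Finset.sum_le_sum fun l _ => Nat.lt_succ_iff.1 (α l).2
    rw [Finset.sum_const, Finset.card_univ, hcard, smul_eq_mul] at h1
    exact h1.trans (Nat.mul_div_le j k)
  let t : (κ → Fin (j / k + 1)) → W → ℂ := fun α y =>
    s i0 y ^ (j - ∑ l, (α l : ℕ)) * ∏ l, s (a l) y ^ (α l : ℕ)
  have ht : ∀ α, (L.pow j).IsSection (t α) := fun α =>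
    isSection_prod (hs i0) (fun l => hs (a l)) _ (hsum α)
  have hli : LinearIndependent ℂ t := by
    rw [Fintype.linearIndependent_iff]
    intro c hc
    have h1 : c = 0 := by
      refine monomials_indep hopen ?_
      have hne : ∀ᶠ y in 𝓝 y0, s i0 y ≠ 0 :=
        (hs i0).holo.continuous.continuousAt.eventually_ne hi0
      filter_upwards [hne] with y hy
      have h2 := congrFun hc y
      rw [Finset.sum_apply, Pi.zero_apply] at h2
      have h3 : ∀ α, (c α • t α) y = s i0 y ^ j * (c α * ∏ l, f y l ^ (α l : ℕ)) := by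
        intro α
        have h4 : ∏ l, f y l ^ (α l : ℕ)
            = (∏ l, s (a l) y ^ (α l : ℕ)) * (s i0 y)⁻¹ ^ (∑ l, (α l : ℕ)) := by
          rw [← Finset.prod_pow_eq_pow_sum, ← Finset.prod_mul_distrib]
          exact Finset.prod_congr rfl fun l _ => by rw [← mul_pow]
        have h5 : s i0 y ^ j = s i0 y ^ (j - ∑ l, (α l : ℕ)) * s i0 y ^ (∑ l, (α l : ℕ)) := by
          rw [← pow_add, Nat.sub_add_cancel (hsum α)]
        change c α * (s i0 y ^ (j - ∑ l, (α l : ℕ)) * ∏ l, s (a l) y ^ (α l : ℕ)) = _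
        rw [h4, h5, inv_pow]
        have h6 : s i0 y ^ (∑ l, (α l : ℕ)) ≠ 0 := pow_ne_zero _ hy
        field_simp
      rw [Finset.sum_congr rfl fun α _ => h3 α, ← Finset.mul_sum] at h2
      exact (mul_eq_zero.1 h2).resolve_left (pow_ne_zero _ hy)
    intro α
    rw [h1]
    rfl
  refine ⟨κ → Fin (j / k + 1), inferInstance, t, ht, hli, ?_⟩
  rw [Fintype.card_fun, Fintype.card_fin, hcard]

end Q47.KN
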