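import Pool.Agent.Q47.KN.Low

/-!
# The upper bound for the number of sections
-/

set_option autoImplicit false

namespace Q47.KN

open Pool.Agent.W594.SYZ2 Pool.Agent.W594.SYZ2.TQ Pool.Agent.TH735.AQ Q47.EB Q47.MM
open Pool.Agent.Helper857 Filter Topology

/-- The lemma of Schwarz. -/
theorem schwarz {g : ℂ → ℂ} (hg : Differentiable ℂ g) {N : ℕ}
    (h : ∀ i < N, iteratedDeriv i g 0 = 0) {B : ℝ} (hB : ∀ z, ‖z‖ = 2 → ‖g z‖ ≤ B) :
    ‖g 1‖ ≤ 2 * B / 2 ^ N := by
  have hs := Complex.hasSum_taylorSeries_of_entire hg 0 1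
  simp only [sub_zero, one_pow, one_smul] at hs
  have hc : ∀ n, ‖((n.factorial : ℂ))⁻¹ • iteratedDeriv n g 0‖ ≤ B / 2 ^ n := by
    intro n
    have h1 := Complex.norm_iteratedDeriv_le_of_forall_mem_sphere_norm_le (c := (0 : ℂ)) n
      (two_pos) hg.diffContOnCl (C := B) (fun z hz => hB z (by simpa using hz))
    have h2 : (0 : ℝ) < n.factorial := by exact_mod_cast Nat.factorial_pos n
    rw [norm_smul, norm_inv, Complex.norm_natCast, inv_mul_le_iff₀ h2]
    refine h1.trans (le_of_eq ?_)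
    ring
  have hs2 := (hasSum_nat_add_iff' N).2 hs
  rw [Finset.sum_eq_zero (fun i hi => by rw [h i (Finset.mem_range.1 hi), smul_zero]),
    sub_zero] at hs2
  rw [← hs2.tsum_eq]
  have hgeo : HasSum (fun n : ℕ => B / 2 ^ N * (1 / 2) ^ n) (B / 2 ^ N * 2) :=
    hasSum_geometric_two.mul_left _
  have h3 := tsum_of_norm_bounded hgeo (f := fun n =>
    (((n + N).factorial : ℂ))⁻¹ • iteratedDeriv (n + N) g 0) (fun n => by
      refine (hc (n + N)).trans (le_of_eq ?_)
      rw [pow_add, one_div, inv_pow]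
      field_simp)
  refine h3.trans (le_of_eq ?_)
  ring

variable {V : Type*} [NormedAddCommGroup V] [NormedSpace ℂ V]

/-- Derivatives along lines. -/
theorem iteratedDeriv_line [FiniteDimensional ℂ V] {f : V → ℂ} (hf : Differentiable ℂ f) (c x : V)
    (n : ℕ) : iteratedDeriv n (fun z : ℂ => f (c + z • x)) 0
      = iteratedFDeriv ℂ n f c (fun _ => x) := by
  have hg : Differentiable ℂ (fun z : V => f (c + z)) :=
    hf.comp ((differentiable_const c).add differentiable_id)
  have h1 := (ContinuousLinearMap.toSpanSingleton ℂ x).iteratedFDeriv_comp_right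
    (contDiff_nat_of_entire n hg) (0 : ℂ) (i := n) le_rfl
  have h2 : (fun s : ℂ => f (c + s • x))
      = (fun z : V => f (c + z)) ∘ (ContinuousLinearMap.toSpanSingleton ℂ x) := by
    funext s
    simp [ContinuousLinearMap.toSpanSingleton_apply]
  rw [iteratedDeriv_eq_iteratedFDeriv, h2, h1,
    ContinuousMultilinearMap.compContinuousLinearMap_apply]
  simp only [ContinuousLinearMap.toSpanSingleton_apply, one_smul, zero_smul]
  rw [iteratedFDeriv_comp_add_left]
  simp

/-- Bound for a hermitian form. -/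
theorem herm_bound [FiniteDimensional ℂ V] {H : V → V → ℂ} (hH : IsHermitian H) :
    ∃ p : ℝ, 0 < p ∧ ∀ x, |(H x x).re| ≤ p * ‖x‖ ^ 2 := by
  have : ProperSpace V := FiniteDimensional.proper ℂ V
  obtain ⟨p, hp⟩ := (isCompact_closedBall (0 : V) 1).exists_bound_of_continuousOn
    (diag_continuous hH).continuousOn
  refine ⟨|p| + 1, by positivity, fun x => ?_⟩
  by_cases hx : x = 0
  · rw [hx, h_zero_left hH, Complex.zero_re, abs_zero, norm_zero]
    simp
  have hx' : 0 < ‖x‖ := norm_pos_iff.2 hx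
  have h1 := hp (((‖x‖⁻¹ : ℝ) : ℂ) • x) (by
    rw [mem_closedBall_zero_iff, norm_smul, Complex.norm_real, Real.norm_of_nonneg (by positivity),
      inv_mul_cancel₀ hx'.ne'])
  rw [h_diag_smul hH, Complex.norm_real, norm_inv, norm_norm, Real.norm_eq_abs, abs_mul,
    abs_of_nonneg (by positivity : (0 : ℝ) ≤ ‖x‖⁻¹ ^ 2), inv_pow,
    inv_mul_le_iff₀ (by positivity)] at h1
  refine h1.trans ?_
  rw [mul_comm]
  refine mul_le_mul_of_nonneg_right ?_ (by positivity)
  linarith [le_abs_self p]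

variable {Γ : Subgroup (V ≃ᵃ[ℂ] V)}

/-- The main estimate: a section which vanishes to the order `16` at the points of a set near all
points of a fundamental domain is zero. -/
theorem zero_of_jets [FiniteDimensional ℂ V] {M : LineBundle Γ}
    {H : V → V → ℂ} {F : V → ℂ} (hH : IsHermitian H) (hpot : IsPot M H F) {C : ℝ}
    (hC : ∀ v : V, ∃ b ∈ latt Γ, ‖b + v‖ ≤ C) {S : Set V}
    (hS : ∀ v, ‖v‖ ≤ C → ∃ c ∈ S, |(H (v - c) (v - c)).re| ≤ 1) {s : V → ℂ}
    (hs : M.IsSection s) (hv : ∀ c ∈ S, ∀ i < 16, iteratedFDeriv ℂ i s c = 0) : s = 0 := by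
  have hF := hpot.1
  have : ProperSpace V := FiniteDimensional.proper ℂ V
  let u : V → ℂ := fun v => s v * Complex.exp (-F v)
  have hu : Differentiable ℂ u := hs.holo.mul hF.neg.cexp
  have hut : ∀ (γ : Γ) (v : V), u ((γ : V ≃ᵃ[ℂ] V) v) = tw M F γ v * u v := by
    intro γ v
    simp only [u, tw]
    rw [hs.eq, Complex.exp_sub, Complex.exp_neg, Complex.exp_neg]
    field_simp
  let φ : V → ℝ := fun v => ‖u v‖ ^ 2 * Real.exp (-(Real.pi * (H v v).re))
  have hper : ∀ b ∈ latt Γ, ∀ v, φ (b + v) = φ v := by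
    intro b hb v
    change ‖u (b + v)‖ ^ 2 * Real.exp (-(Real.pi * (H (b + v) (b + v)).re))
      = ‖u v‖ ^ 2 * Real.exp (-(Real.pi * (H v v).re))
    have e1 : ‖u (b + v)‖ ^ 2 = ‖tw M F (tr b hb) v‖ ^ 2 * ‖u v‖ ^ 2 := by
      have := hut (tr b hb) v
      rw [tr_apply] at this
      rw [this, norm_mul, mul_pow]
    rw [e1, tw_norm hpot, tr_apply, mul_sub, Real.exp_sub, Real.exp_neg, Real.exp_neg]
    field_simp
  have hφc : Continuous φ := (hu.continuous.norm.pow 2).mul
    (Real.continuous_exp.comp ((diag_continuous hH).const_mul Real.pi).neg)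
  have hK : IsCompact (Metric.closedBall (0 : V) C) := isCompact_closedBall _ _
  obtain ⟨b0, hb0, hbC0⟩ := hC 0
  obtain ⟨v0, hv0, hmax⟩ := hK.exists_isMaxOn
    ⟨b0 + 0, by rwa [mem_closedBall_zero_iff]⟩ hφc.continuousOn
  have hup : ∀ v, φ v ≤ φ v0 := by
    intro v
    obtain ⟨b, hb, hbC⟩ := hC v
    rw [← hper b hb v]
    exact hmax (by rwa [mem_closedBall_zero_iff])
  obtain ⟨c, hcS, hc⟩ := hS v0 (by rwa [mem_closedBall_zero_iff] at hv0)
  set x := v0 - c with hx
  have hline : Differentiable ℂ fun z : ℂ => c + z • x :=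
    (differentiable_id.smul_const x).const_add c
  let e : ℂ → ℂ := fun z => Complex.exp (-F (c + z • x) - Real.pi * (z * H x c))
  have he : Differentiable ℂ e := by
    have e1 : Differentiable ℂ fun z : ℂ => F (c + z • x) := hF.comp hline
    exact (e1.neg.sub ((differentiable_id.mul_const (H x c)).const_mul (Real.pi : ℂ))).cexp
  let g : ℂ → ℂ := fun z => s (c + z • x) * e z
  have hsl : Differentiable ℂ fun z : ℂ => s (c + z • x) := hs.holo.comp hline
  have hg : Differentiable ℂ g := hsl.mul he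
  have hg0 : ∀ i < 16, iteratedDeriv i g 0 = 0 := by
    have ha : AnalyticAt ℂ (fun z : ℂ => s (c + z • x)) 0 := hsl.analyticAt 0
    have hb : AnalyticAt ℂ e 0 := he.analyticAt 0
    have h1 : ((16 : ℕ) : ℕ∞) ≤ analyticOrderAt (fun z : ℂ => s (c + z • x)) 0 := by
      rw [natCast_le_analyticOrderAt_iff_iteratedDeriv_eq_zero ha]
      intro i hi
      rw [iteratedDeriv_line hs.holo, hv c hcS i hi]
      rfl
    have h2 : ((16 : ℕ) : ℕ∞) ≤ analyticOrderAt g 0 := by
      have h3 : analyticOrderAt g 0 = analyticOrderAt (fun z : ℂ => s (c + z • x)) 0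
          + analyticOrderAt e 0 := analyticOrderAt_mul ha hb
      rw [h3]
      exact le_add_right h1
    exact (natCast_le_analyticOrderAt_iff_iteratedDeriv_eq_zero (hg.analyticAt 0)).1 h2
  set h := (H x x).re with hh
  set h0 := (H c c).re with hh0
  have hnorm : ∀ z, ‖g z‖ ^ 2 = φ (c + z • x) *
      Real.exp (Real.pi * h0 + Real.pi * (‖z‖ ^ 2 * h)) := by
    intro z
    have e1 : (H (c + z • x) (c + z • x)).re = h0 + ‖z‖ ^ 2 * h + 2 * (z * H x c).re := by
      rw [add_comm c, h_diag_add hH, h_diag_smul hH, hH.smul_left]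
      ring
    have e2 : g z = u (c + z • x) * Complex.exp (-(Real.pi * (z * H x c))) := by
      simp only [g, u, e]
      rw [mul_assoc, ← Complex.exp_add]
      congr 2
    have e3 : ‖Complex.exp (-(Real.pi * (z * H x c)))‖ ^ 2
        = Real.exp (-(2 * (Real.pi * (z * H x c).re))) := by
      rw [Complex.norm_exp, Complex.neg_re, Complex.re_ofReal_mul, ← Real.exp_nat_mul]
      congr 1
      push_cast
      ring
    change _ = ‖u (c + z • x)‖ ^ 2 * Real.exp (-(Real.pi * (H (c + z • x) (c + z • x)).re)) * _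
    rw [e2, norm_mul, mul_pow, e3, e1, mul_assoc, ← Real.exp_add]
    congr 2
    ring
  have hφ0 : 0 ≤ φ v0 := mul_nonneg (sq_nonneg _) (Real.exp_pos _).le
  have hB : ∀ z, ‖z‖ = 2 → ‖g z‖ ≤ Real.sqrt (φ v0 * Real.exp (Real.pi * h0 + Real.pi * 4)) := by
    intro z hz
    refine Real.le_sqrt_of_sq_le ?_
    rw [hnorm, hz]
    refine mul_le_mul (hup _) (Real.exp_le_exp.2 ?_) (Real.exp_pos _).le hφ0
    have : h ≤ 1 := (abs_le.1 hc).2
    nlinarith [Real.pi_pos]
  have h1 := schwarz hg hg0 hB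
  have h2 : ‖g 1‖ ^ 2 ≤ φ v0 * Real.exp (Real.pi * h0 + Real.pi * 4) * (4 / 4 ^ 16) := by
    have h3 := pow_le_pow_left₀ (norm_nonneg _) h1 2
    refine h3.trans (le_of_eq ?_)
    rw [div_pow, mul_pow, Real.sq_sqrt (mul_nonneg hφ0 (Real.exp_pos _).le)]
    norm_num
    ring
  have hcx : c + (1 : ℂ) • x = v0 := by rw [one_smul, hx]; abel
  rw [hnorm 1, hcx, norm_one, one_pow, one_mul] at h2
  have h3 : φ v0 = 0 := by
    by_contra hne
    have hpos : 0 < φ v0 := lt_of_le_of_ne hφ0 (Ne.symm hne)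
    have h2' : φ v0 * Real.exp (Real.pi * h0 + Real.pi * h)
        ≤ φ v0 * (Real.exp (Real.pi * h0 + Real.pi * 4) * (4 / 4 ^ 16)) := by
      rw [← mul_assoc]
      exact h2
    have h4 := le_of_mul_le_mul_left h2' hpos
    have h5 : Real.exp (Real.pi * h0 + Real.pi * h)
        = Real.exp (Real.pi * h0 + Real.pi * 4) * Real.exp (Real.pi * h - Real.pi * 4) := by
      rw [← Real.exp_add]
      congr 1
      ring
    rw [h5] at h4
    have h6 := le_of_mul_le_mul_left h4 (Real.exp_pos _)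
    have h7 : Real.exp (-16) ≤ Real.exp (Real.pi * h - Real.pi * 4) := by
      refine Real.exp_le_exp.2 ?_
      have : -1 ≤ h := (abs_le.1 hc).1
      have := Real.pi_lt_d2
      nlinarith [Real.pi_pos]
    have h8 : Real.exp 16 ≤ 2.7182818286 ^ 16 := by
      have := Real.exp_one_lt_d9
      have e1 : Real.exp 16 = Real.exp 1 ^ 16 := by
        rw [← Real.exp_nat_mul]; norm_num
      rw [e1]
      exact pow_le_pow_left₀ (Real.exp_pos _).le this.le 16
    have h9 : (1 : ℝ) ≤ 4 / 4 ^ 16 * Real.exp 16 := by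
      have h10 := mul_le_mul_of_nonneg_right (h7.trans h6) (Real.exp_pos 16).le
      rwa [← Real.exp_add, neg_add_cancel, Real.exp_zero] at h10
    have h10 : (4 : ℝ) / 4 ^ 16 * Real.exp 16 ≤ 4 / 4 ^ 16 * 2.7182818286 ^ 16 :=
      mul_le_mul_of_nonneg_left h8 (by positivity)
    have h11 : (4 : ℝ) / 4 ^ 16 * 2.7182818286 ^ 16 < 1 := by norm_num
    linarith
  funext v
  have h4 := (hup v).trans h3.le
  have h5 : ‖u v‖ ^ 2 * Real.exp (-(Real.pi * (H v v).re)) ≤ 0 := h4
  have h6 : ‖u v‖ ^ 2 ≤ 0 := by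
    by_contra hcon
    push Not at hcon
    have := mul_pos hcon (Real.exp_pos (-(Real.pi * (H v v).re)))
    linarith
  have h7 : u v = 0 := by
    have := le_antisymm h6 (sq_nonneg _)
    exact norm_eq_zero.1 (pow_eq_zero_iff two_ne_zero |>.1 this)
  exact (mul_eq_zero.1 h7).resolve_right (Complex.exp_ne_zero _)

end Q47.KN
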